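import Mathlib

set_option autoImplicit false

/-!
# Definitions for the CFSG-free theorem on colourings of primitive groups (helper72, MP_acf1dc_al)
-/

namespace Pool.Agent.TH72.CF

open Equiv

/-- `H` is doubly transitive. -/
def TwoTrans {Δ : Type} (H : Subgroup (Perm Δ)) : Prop :=
  ∀ a b c d : Δ, a ≠ b → c ≠ d → ∃ h ∈ H, h a = c ∧ h b = d

/-- the tuple `R` separates `x` from `y`: no element of `H` which fixes all `R i` maps `x` to `y` -/
def Sep {Δ ι : Type} (H : Subgroup (Perm Δ)) (R : ι → Δ) (x y : Δ) : Prop :=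
  ∀ g ∈ H, (∀ i, g (R i) = R i) → g x ≠ y

/-- the orbit of `x` under the pointwise stabilizer of the tuple `R` -/
def orb {Δ ι : Type} (H : Subgroup (Perm Δ)) (R : ι → Δ) (x : Δ) : Set Δ :=
  {y | ∃ g ∈ H, (∀ i, g (R i) = R i) ∧ g x = y}

/-- the colouring we look for: no nontrivial element of `H` preserves `α`, and no element of `H`
maps `α` to its complement -/
def Dist {Δ : Type} (H : Subgroup (Perm Δ)) (α : Δ → Bool) : Prop :=
  (∀ h ∈ H, (∀ x, α (h x) = α x) → h = 1) ∧ ∀ h ∈ H, ¬ ∀ x, α (h x) = !(α x)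

end Pool.Agent.TH72.CF
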