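import Mathlib

set_option autoImplicit false

/-!
# Numerical estimates
-/

namespace Pool.Agent.TH72.CF

open Real Filter Topology

theorem num3 (n : ℕ) (hn : 1 ≤ n) (δ : ℝ) (hδ0 : 0 < δ) (hδ1 : δ ≤ 1) (t : ℕ)
    (ht : (2 * Real.log n + 2) / δ ≤ t) : (n : ℝ) ^ 2 * (1 - δ) ^ t ≤ 1 / 4 := by
  have hn' : (0 : ℝ) < n := by exact_mod_cast hn
  have h1 : (1 - δ) ^ t ≤ Real.exp (-(δ * t)) := by
    calc (1 - δ) ^ t ≤ (Real.exp (-δ)) ^ t := by
          apply pow_le_pow_left₀ (by linarith)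
          have := Real.add_one_le_exp (-δ)
          linarith
      _ = Real.exp (-(δ * t)) := by
          rw [← Real.exp_nat_mul]
          congr 1
          ring
  have h2 : 2 * Real.log n + 2 ≤ δ * t := by
    rw [div_le_iff₀ hδ0] at ht
    linarith
  have h3 : Real.exp (-(δ * t)) ≤ Real.exp (-(2 * Real.log n + 2)) :=
    Real.exp_le_exp.2 (by linarith)
  have h4 : Real.exp (-(2 * Real.log n + 2)) = ((n : ℝ) ^ 2)⁻¹ * Real.exp (-2) := by
    rw [neg_add, Real.exp_add, Real.exp_neg]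
    congr 2
    rw [two_mul, Real.exp_add, Real.exp_log hn']
    ring
  have h5 : Real.exp (-2) ≤ 1 / 4 := by
    rw [Real.exp_neg, one_div]
    apply inv_anti₀ (by norm_num)
    have := Real.add_one_le_exp (1 : ℝ)
    have h6 : Real.exp 2 = Real.exp 1 * Real.exp 1 := by rw [← Real.exp_add]; norm_num
    rw [h6]
    nlinarith
  calc (n : ℝ) ^ 2 * (1 - δ) ^ t ≤ (n : ℝ) ^ 2 * (((n : ℝ) ^ 2)⁻¹ * Real.exp (-2)) := by
        apply mul_le_mul_of_nonneg_left _ (by positivity)
        rw [← h4]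
        exact h1.trans h3
    _ = Real.exp (-2) := by
        rw [← mul_assoc, mul_inv_cancel₀ (by positivity), one_mul]
    _ ≤ 1 / 4 := h5

theorem num0 : ∃ X : ℝ, (∀ x : ℝ, X ≤ x → ‖Real.log x‖ ≤ 1 * ‖x ^ (1 / 8 : ℝ)‖) ∧
    ∀ x : ℝ, X ≤ x → (5760 : ℝ) ≤ x ^ (1 / 8 : ℝ) := by
  have h1 : ∀ᶠ x : ℝ in atTop, ‖Real.log x‖ ≤ 1 * ‖x ^ (1 / 8 : ℝ)‖ :=
    (isLittleO_log_rpow_atTop (by norm_num : (0 : ℝ) < 1 / 8)).bound one_pos
  have h2 : ∀ᶠ x : ℝ in atTop, (5760 : ℝ) ≤ x ^ (1 / 8 : ℝ) :=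
    (tendsto_rpow_atTop (by norm_num : (0 : ℝ) < 1 / 8)).eventually_ge_atTop 5760
  obtain ⟨X, hX⟩ := eventually_atTop.1 (h1.and h2)
  exact ⟨X, fun x hx => (hX x hx).1, fun x hx => (hX x hx).2⟩

theorem num1 : ∃ N₀ : ℕ, ∀ n : ℕ, N₀ ≤ n → ∀ r : ℕ, 0 < r →
    (r : ℝ) ≤ √(n : ℝ) * (20 * Real.log n + 20) →
    (r : ℝ) * (n : ℝ) * (2 : ℝ) ^ (-((n : ℝ) / (6 * (r : ℝ)))) ≤ 1 / 16 := by
  obtain ⟨X, hX, hXz⟩ := num0
  refine ⟨⌈X⌉₊ + 1, fun n hn r hr hrn => ?_⟩
  have hn1 : X ≤ n := by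
    have : ⌈X⌉₊ + 1 ≤ n := hn
    calc X ≤ (⌈X⌉₊ : ℝ) := Nat.le_ceil X
      _ ≤ ((⌈X⌉₊ + 1 : ℕ) : ℝ) := by push_cast; linarith
      _ ≤ n := by exact_mod_cast this
  have hn0 : (1 : ℝ) ≤ n := by
    have : 1 ≤ n := by omega
    exact_mod_cast this
  have hnpos : (0 : ℝ) < n := by linarith
  have hlog : Real.log n ≤ (n : ℝ) ^ (1 / 8 : ℝ) := by
    have := hX n hn1
    rw [one_mul, Real.norm_of_nonneg (Real.log_nonneg hn0),
      Real.norm_of_nonneg (by positivity)] at this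
    exact this
  set L : ℝ := Real.log n with hL
  set z : ℝ := (n : ℝ) ^ (1 / 8 : ℝ) with hz
  have hz0 : 0 < z := by positivity
  have hz50 : (5760 : ℝ) ≤ z := hXz n hn1
  have hsq : √(n : ℝ) = z ^ 4 := by
    rw [hz, Real.sqrt_eq_rpow, ← Real.rpow_natCast, ← Real.rpow_mul hnpos.le]
    norm_num
  have hL0 : 0 ≤ L := Real.log_nonneg hn0
  have hr' : (r : ℝ) ≤ z ^ 4 * (20 * L + 20) := by rw [← hsq]; exact hrn
  have hr0 : (0 : ℝ) < r := by exact_mod_cast hr
  have hnz : (n : ℝ) = z ^ 8 := by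
    rw [hz, ← Real.rpow_natCast, ← Real.rpow_mul hnpos.le]
    norm_num
  -- lower bound for the exponent
  have hexp : 6 * L + 6 ≤ (n : ℝ) / (6 * r) * Real.log 2 := by
    have h2 : (1 / 2 : ℝ) ≤ Real.log 2 := by
      have := Real.log_two_gt_d9
      linarith
    have h3 : 12 * L + 12 ≤ (n : ℝ) / (6 * r) := by
      rw [le_div_iff₀ (by positivity)]
      calc (12 * L + 12) * (6 * r) ≤ (12 * L + 12) * (6 * (z ^ 4 * (20 * L + 20))) := by
            apply mul_le_mul_of_nonneg_left _ (by linarith)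
            linarith
        _ = 1440 * (L + 1) ^ 2 * z ^ 4 := by ring
        _ ≤ 1440 * (z + 1) ^ 2 * z ^ 4 := by
            apply mul_le_mul_of_nonneg_right _ (by positivity)
            apply mul_le_mul_of_nonneg_left _ (by norm_num)
            apply pow_le_pow_left₀ (by linarith)
            linarith
        _ ≤ z ^ 8 := by
            have hz1 : (1 : ℝ) ≤ z := le_trans (by norm_num) hz50
            have e1 : (z + 1) ^ 2 ≤ 4 * z ^ 2 := by nlinarith
            have e2 : 1440 * (4 * z ^ 2) ≤ z ^ 4 := by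
              have : (5760 : ℝ) ≤ z ^ 2 := by nlinarith
              nlinarith [sq_nonneg z]
            calc 1440 * (z + 1) ^ 2 * z ^ 4 ≤ z ^ 4 * z ^ 4 := by
                  apply mul_le_mul_of_nonneg_right _ (by positivity)
                  linarith
              _ = z ^ 8 := by ring
        _ = n := hnz.symm
    nlinarith
  -- upper bound for `r n`
  have hrn2 : (r : ℝ) * n ≤ Real.exp (3 * L) := by
    have e0 : Real.exp (3 * L) = (n : ℝ) ^ 3 := by
      rw [show (3 : ℝ) * L = L + L + L by ring, Real.exp_add, Real.exp_add, hL, Real.exp_log hnpos]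
      ring
    rw [e0]
    have e1 : (r : ℝ) ≤ n ^ 2 := by
      calc (r : ℝ) ≤ z ^ 4 * (20 * L + 20) := hr'
        _ ≤ z ^ 4 * (20 * z + 20) := by
            apply mul_le_mul_of_nonneg_left _ (by positivity)
            linarith
        _ ≤ z ^ 8 := by
            have hz1 : (40 : ℝ) ≤ z := le_trans (by norm_num) hz50
            have : 20 * z + 20 ≤ z ^ 4 := by
              have a1 : 20 * z + 20 ≤ z * z := by nlinarith
              have a2 : z * z ≤ z ^ 4 := by nlinarith [sq_nonneg z, mul_pos hz0 hz0]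
              linarith
            calc z ^ 4 * (20 * z + 20) ≤ z ^ 4 * z ^ 4 :=
                  mul_le_mul_of_nonneg_left this (by positivity)
              _ = z ^ 8 := by ring
        _ = n := hnz.symm
        _ ≤ n ^ 2 := by nlinarith
    nlinarith
  have h16 : Real.exp (-(3 : ℝ)) ≤ 1 / 16 := by
    rw [Real.exp_neg, one_div]
    apply inv_anti₀ (by norm_num)
    have := Real.exp_one_gt_d9
    have h6 : Real.exp 3 = Real.exp 1 * Real.exp 1 * Real.exp 1 := by
      rw [← Real.exp_add, ← Real.exp_add]; norm_num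
    rw [h6]
    have h7 : (2.7 : ℝ) < Real.exp 1 := by linarith
    have h8 : (7 : ℝ) < Real.exp 1 * Real.exp 1 := by nlinarith
    nlinarith
  calc (r : ℝ) * (n : ℝ) * (2 : ℝ) ^ (-((n : ℝ) / (6 * (r : ℝ))))
      ≤ Real.exp (3 * L) * Real.exp (-(6 * L + 6)) := by
        apply mul_le_mul hrn2 _ (by positivity) (by positivity)
        rw [Real.rpow_def_of_pos (by norm_num)]
        apply Real.exp_le_exp.2
        nlinarith
    _ = Real.exp (-(3 * L + 6)) := by rw [← Real.exp_add]; congr 1; ring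
    _ ≤ Real.exp (-(3 : ℝ)) := Real.exp_le_exp.2 (by linarith)
    _ ≤ 1 / 16 := h16

theorem num2 : ∃ N₀ : ℕ, ∀ n : ℕ, N₀ ≤ n → ∃ P : Finset ℕ, (∀ p ∈ P, p.Prime) ∧ P.Nonempty ∧
    12 * Nat.log 2 n < P.card ∧ (∑ p ∈ P, p) ^ 4 ≤ n := by
  obtain ⟨X, hX, hXz⟩ := num0
  set M : ℕ := ⌈X⌉₊ + 3 with hM
  refine ⟨(M + 2) ^ 8, fun n hn => ?_⟩
  -- the eighth root
  obtain ⟨s, hs1, hs2⟩ : ∃ s : ℕ, (s + 1) ^ 8 ≤ n ∧ n < (s + 2) ^ 8 := by
    have hex : ∃ k : ℕ, n < (k + 2) ^ 8 := ⟨n, by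
      calc n < n + 2 := by omega
        _ = (n + 2) ^ 1 := (pow_one _).symm
        _ ≤ (n + 2) ^ 8 := Nat.pow_le_pow_right (by omega) (by norm_num)⟩
    classical
    refine ⟨Nat.find hex, ?_, Nat.find_spec hex⟩
    rcases Nat.eq_zero_or_pos (Nat.find hex) with h0 | h0
    · rw [h0]
      calc (0 + 1) ^ 8 ≤ (M + 2) ^ 8 := Nat.pow_le_pow_left (by omega) 8
        _ ≤ n := hn
    · have := Nat.find_min hex (Nat.sub_lt h0 one_pos)
      rw [not_lt] at this
      have e : Nat.find hex - 1 + 2 = Nat.find hex + 1 := by omega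
      rw [e] at this
      exact this
  have hsM : M ≤ s := by
    by_contra hlt
    rw [not_le] at hlt
    have : n < (M + 2) ^ 8 := lt_of_lt_of_le hs2 (Nat.pow_le_pow_left (by omega) 8)
    omega
  have hs100 : 3 ≤ s := by omega
  have hsX : X ≤ s := by
    have : ⌈X⌉₊ + 1 ≤ s := by omega
    calc X ≤ (⌈X⌉₊ : ℝ) := Nat.le_ceil X
      _ ≤ ((⌈X⌉₊ + 1 : ℕ) : ℝ) := by push_cast; linarith
      _ ≤ s := by exact_mod_cast this
  have hs100' : (3 : ℝ) ≤ s := by exact_mod_cast hs100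
  have hs0 : (1 : ℝ) ≤ s := le_trans (by norm_num) hs100'
  have hspos : (0 : ℝ) < s := by linarith
  set P : Finset ℕ := (Finset.range (s + 1)).filter Nat.Prime with hP
  have hcard : P.card = Nat.primeCounting s := by
    rw [hP, Nat.primeCounting, Nat.primeCounting', Nat.count_eq_card_filter_range]
  have hpi := Chebyshev.pi_ge s
  set z : ℝ := (s : ℝ) ^ (1 / 8 : ℝ) with hz
  have hz0 : 0 < z := by positivity
  have hlog : Real.log s ≤ z := by
    have := hX s hsX
    rw [one_mul, Real.norm_of_nonneg (Real.log_nonneg hs0),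
      Real.norm_of_nonneg (by positivity)] at this
    exact this
  have hz12 : (5760 : ℝ) ≤ z := hXz s hsX
  have hsz : (s : ℝ) = z ^ 8 := by
    rw [hz, ← Real.rpow_natCast, ← Real.rpow_mul hspos.le]
    norm_num
  have hlogpos : 0 < Real.log s := Real.log_pos (lt_of_lt_of_le (by norm_num) hs100')
  -- lower bound of the number of primes
  have hlow : (z ^ 2 : ℝ) ≤ P.card := by
    rw [hcard]
    refine le_trans ?_ hpi
    rw [le_div_iff₀ hlogpos]
    have a1 : Real.log ((s : ℝ) + 1) ≤ 1 + z := by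
      calc Real.log ((s : ℝ) + 1) ≤ Real.log (2 * s) := Real.log_le_log (by linarith) (by linarith)
        _ = Real.log 2 + Real.log s := Real.log_mul (by norm_num) hspos.ne'
        _ ≤ 1 + z := by
          have := Real.log_two_lt_d9
          linarith
    have a2 : (1 / 2 : ℝ) ≤ Real.log 2 := by
      have := Real.log_two_gt_d9
      linarith
    have a3 : z ^ 2 * Real.log s ≤ z ^ 3 := by
      calc z ^ 2 * Real.log s ≤ z ^ 2 * z := mul_le_mul_of_nonneg_left hlog (by positivity)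
        _ = z ^ 3 := by ring
    have a4 : (s : ℝ) * (1 / 2) ≤ s * Real.log 2 := mul_le_mul_of_nonneg_left a2 hspos.le
    have hz1 : (4096 : ℝ) ≤ z := by
      refine le_trans ?_ hz12
      norm_num
    have a5 : z ^ 3 + (1 + z) ≤ z ^ 8 * (1 / 2) := by
      have b1 : z ^ 3 ≤ z ^ 8 * (1 / 8) := by
        have : (8 : ℝ) ≤ z ^ 5 := by
          have := pow_le_pow_left₀ (by norm_num) hz1 5
          linarith [this, show (8 : ℝ) ≤ 4096 ^ 5 by norm_num]
        calc z ^ 3 = z ^ 3 * 1 := (mul_one _).symm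
          _ ≤ z ^ 3 * (z ^ 5 * (1 / 8)) := by
              apply mul_le_mul_of_nonneg_left _ (by positivity)
              linarith
          _ = z ^ 8 * (1 / 8) := by ring
      have b2 : 1 + z ≤ z ^ 3 := by nlinarith [sq_nonneg z, mul_pos hz0 hz0, mul_pos (mul_pos hz0 hz0) hz0]
      nlinarith
    rw [hsz] at a4 ⊢
    rw [hsz] at a1 a3
    linarith
  -- upper bound of the logarithm
  have hup : ((12 * Nat.log 2 n : ℕ) : ℝ) < z ^ 2 := by
    have b1 : Nat.log 2 n ≤ 16 * (Nat.log 2 s + 1) := by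
      have c0 : s + 2 ≤ 2 ^ (2 * (Nat.log 2 s + 1)) := by
        have c1 : s < 2 ^ (Nat.log 2 s + 1) := Nat.lt_pow_succ_log_self (by norm_num) s
        have c2 : 2 ≤ 2 ^ (Nat.log 2 s + 1) := by
          calc 2 = 2 ^ 1 := rfl
            _ ≤ _ := Nat.pow_le_pow_right (by norm_num) (by omega)
        rw [two_mul, pow_add]
        nlinarith
      have c3 : n < 2 ^ (16 * (Nat.log 2 s + 1)) := by
        calc n < (s + 2) ^ 8 := hs2
          _ ≤ (2 ^ (2 * (Nat.log 2 s + 1))) ^ 8 := Nat.pow_le_pow_left c0 8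
          _ = 2 ^ (16 * (Nat.log 2 s + 1)) := by rw [← pow_mul]; congr 1; ring
      exact (Nat.log_lt_of_lt_pow (by intro h; rw [h] at hs1; simp at hs1) c3).le
    have b2 : ((Nat.log 2 s : ℕ) : ℝ) ≤ 2 * z := by
      have c1 : ((2 : ℝ) ^ (Nat.log 2 s)) ≤ s := by
        exact_mod_cast Nat.pow_log_le_self 2 (by omega)
      have c2 := Real.log_le_log (by positivity) c1
      rw [Real.log_pow] at c2
      have c3 : (1 / 2 : ℝ) ≤ Real.log 2 := by
        have := Real.log_two_gt_d9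
        linarith
      have c4 : (0 : ℝ) ≤ (Nat.log 2 s : ℕ) := by positivity
      nlinarith
    have b3 : ((12 * Nat.log 2 n : ℕ) : ℝ) ≤ 12 * (16 * (2 * z + 1)) := by
      have : ((Nat.log 2 n : ℕ) : ℝ) ≤ 16 * ((Nat.log 2 s : ℕ) + 1) := by exact_mod_cast b1
      push_cast
      linarith
    have hz1 : (4096 : ℝ) ≤ z := by
      refine le_trans ?_ hz12
      norm_num
    nlinarith
  refine ⟨P, ?_, ?_, ?_, ?_⟩
  · intro p hp
    rw [hP, Finset.mem_filter] at hp
    exact hp.2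
  · rw [← Finset.card_pos]
    have : (0 : ℝ) < P.card := lt_of_lt_of_le (by positivity) hlow
    exact_mod_cast this
  · have : ((12 * Nat.log 2 n : ℕ) : ℝ) < (P.card : ℝ) := lt_of_lt_of_le hup hlow
    exact_mod_cast this
  · have hsum : ∑ p ∈ P, p ≤ (s + 1) ^ 2 := by
      calc ∑ p ∈ P, p ≤ ∑ p ∈ P, (s + 1) := by
            apply Finset.sum_le_sum
            intro p hp
            rw [hP, Finset.mem_filter, Finset.mem_range] at hp
            omega
        _ = P.card * (s + 1) := by rw [Finset.sum_const, smul_eq_mul]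
        _ ≤ (s + 1) * (s + 1) := by
            apply Nat.mul_le_mul_right
            calc P.card ≤ (Finset.range (s + 1)).card := Finset.card_filter_le _ _
              _ = s + 1 := Finset.card_range _
        _ = (s + 1) ^ 2 := by ring
    calc (∑ p ∈ P, p) ^ 4 ≤ ((s + 1) ^ 2) ^ 4 := Nat.pow_le_pow_left hsum 4
      _ = (s + 1) ^ 8 := by rw [← pow_mul]
      _ ≤ n := hs1

end Pool.Agent.TH72.CF
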