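import Mathlib
import Pool.Agent.TH72.CF.Defs
import Pool.Agent.TH72.CF.Num
import Pool.Agent.TH554.J545
import Pool.Agent.TH772.CF.Giant
import Pool.Agent.TH772.CF.Degree
import Pool.Agent.TH241.J547
import Pool.Agent.TH350.J549
import Pool.Agent.TH189.J550

set_option autoImplicit false

/-!
# Large primitive groups have distinguishing 2-colourings (CFSG-free)
-/

namespace Pool.Agent.TH72.CF

open Equiv Finset

section basics

variable {Δ : Type} [Fintype Δ] [DecidableEq Δ] (H : Subgroup (Perm Δ))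

omit [Fintype Δ] [DecidableEq Δ] in
theorem sep_conj {ι : Type} (Z : ι → Δ) (k : Perm Δ) (hk : k ∈ H) (x y : Δ) :
    Sep H (fun i => k (Z i)) (k x) (k y) ↔ Sep H Z x y := by
  constructor
  · intro h g hg hZ hxy
    refine h (k * g * k⁻¹) (H.mul_mem (H.mul_mem hk hg) (H.inv_mem hk)) (fun i => ?_) ?_
    · simp [hZ i]
    · simp [hxy]
  · intro h g hg hZ hxy
    refine h (k⁻¹ * g * k) (H.mul_mem (H.mul_mem (H.inv_mem hk) hg) hk) (fun i => ?_) ?_
    · simp [hZ i]
    · simp [hxy]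

omit [Fintype Δ] [DecidableEq Δ] in
theorem orb_conj {ι : Type} (Z : ι → Δ) (k : Perm Δ) (hk : k ∈ H) (x : Δ) :
    (orb H (fun i => k (Z i)) (k x)).ncard = (orb H Z x).ncard := by
  have : orb H (fun i => k (Z i)) (k x) = k '' orb H Z x := by
    ext y
    constructor
    · rintro ⟨g, hg, hZ, hxy⟩
      refine ⟨k⁻¹ y, ⟨k⁻¹ * g * k, H.mul_mem (H.mul_mem (H.inv_mem hk) hg) hk, fun i => ?_, ?_⟩, ?_⟩
      · simp [hZ i]
      · simp [hxy]
      · simp
    · rintro ⟨z, ⟨g, hg, hZ, hxy⟩, rfl⟩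
      refine ⟨k * g * k⁻¹, H.mul_mem (H.mul_mem hk hg) (H.inv_mem hk), fun i => ?_, ?_⟩
      · simp [hZ i]
      · simp [hxy]
  rw [this, Set.ncard_image_of_injective _ k.injective]

theorem two_sep (h2 : TwoTrans H) {j : ℕ} (Z : Fin j → Δ) (δ : ℝ)
    (hZ : ∀ x, ((orb H Z x).ncard : ℝ) ≤ (1 - δ) * (Fintype.card Δ : ℝ)) (x y : Δ) (hxy : x ≠ y) :
    δ * (Nat.card H : ℝ) ≤ (Nat.card {h : H // Sep H (fun i => h.1 (Z i)) x y} : ℝ) := by
  classical
  let F : Δ → Δ → ℕ := fun x y =>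
    ((Finset.univ : Finset H).filter (fun h : H => Sep H (fun i => h.1 (Z i)) x y)).card
  have hF0 : Nat.card {h : H // Sep H (fun i => h.1 (Z i)) x y} = F x y := by
    rw [Nat.card_eq_fintype_card, Fintype.card_subtype]
  have hFinv : ∀ k ∈ H, ∀ u v, F (k u) (k v) = F u v := by
    intro k hk u v
    refine (Finset.card_bij (fun (h : H) _ => (⟨k, hk⟩ : H) * h) ?_ ?_ ?_).symm
    · intro h hh
      rw [Finset.mem_filter] at hh ⊢
      refine ⟨Finset.mem_univ _, ?_⟩
      exact (sep_conj H (fun i => h.1 (Z i)) k hk u v).2 hh.2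
    · intro a _ b _ hab
      exact mul_left_cancel hab
    · intro h hh
      rw [Finset.mem_filter] at hh
      refine ⟨(⟨k, hk⟩ : H)⁻¹ * h, ?_, by simp⟩
      rw [Finset.mem_filter]
      refine ⟨Finset.mem_univ _, ?_⟩
      refine (sep_conj H _ k hk u v).1 ?_
      convert hh.2 using 2
      simp
  have hFle : ∀ u v, F u v ≤ F x y := by
    intro u v
    by_cases huv : u = v
    · subst huv
      have : F u u = 0 := by
        rw [Finset.card_eq_zero, Finset.filter_eq_empty_iff]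
        intro h _ hs
        exact hs 1 H.one_mem (fun i => rfl) rfl
      omega
    · obtain ⟨k, hk, h3, h4⟩ := h2 u v x y huv hxy
      rw [← h3, ← h4, hFinv k hk]
  have hrow : ∀ h : H, ∀ u : Δ, δ * (Fintype.card Δ : ℝ) ≤
      ((Finset.univ.filter (fun v => Sep H (fun i => h.1 (Z i)) u v)).card : ℝ) := by
    intro h u
    have e1 : (Finset.univ.filter (fun v => Sep H (fun i => h.1 (Z i)) u v)).card +
        (orb H (fun i => h.1 (Z i)) u).ncard = Fintype.card Δ := by
      have e2 : (orb H (fun i => h.1 (Z i)) u) =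
          ((Finset.univ.filter (fun v => ¬ Sep H (fun i => h.1 (Z i)) u v) : Finset Δ) : Set Δ) := by
        ext v
        simp only [orb, Sep, Set.mem_ofPred_eq, Finset.coe_filter, Finset.mem_univ, true_and,
          not_forall, not_not]
        constructor
        · rintro ⟨g, hg, h3, h4⟩
          exact ⟨g, hg, h3, h4⟩
        · rintro ⟨g, hg, h3, h4⟩
          exact ⟨g, hg, h3, h4⟩
      rw [e2, Set.ncard_coe_finset, Finset.card_filter_add_card_filter_not]
      exact Finset.card_univ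
    have e3 : ((orb H (fun i => h.1 (Z i)) u).ncard : ℝ) ≤ (1 - δ) * (Fintype.card Δ : ℝ) := by
      have e4 := orb_conj H Z h.1 h.2 (h.1⁻¹ u)
      have e6 : h.1 (h.1⁻¹ u) = u := by simp
      rw [e6] at e4
      rw [e4]
      exact hZ _
    have e5 : ((Finset.univ.filter (fun v => Sep H (fun i => h.1 (Z i)) u v)).card : ℝ) +
        ((orb H (fun i => h.1 (Z i)) u).ncard : ℝ) = (Fintype.card Δ : ℝ) := by exact_mod_cast e1
    linarith
  have hdc : ∑ u : Δ, ∑ v : Δ, F u v =
      ∑ h : H, ∑ u : Δ, (Finset.univ.filter (fun v => Sep H (fun i => h.1 (Z i)) u v)).card := by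
    simp only [F, Finset.card_filter]
    calc (∑ u : Δ, ∑ v : Δ, ∑ h : H, if Sep H (fun i => h.1 (Z i)) u v then 1 else 0)
        = ∑ u : Δ, ∑ h : H, ∑ v : Δ, if Sep H (fun i => h.1 (Z i)) u v then 1 else 0 :=
          Finset.sum_congr rfl (fun u _ => Finset.sum_comm)
      _ = ∑ h : H, ∑ u : Δ, ∑ v : Δ, if Sep H (fun i => h.1 (Z i)) u v then 1 else 0 :=
          Finset.sum_comm
  have hn0 : (0 : ℝ) < Fintype.card Δ := by
    have : 0 < Fintype.card Δ := Fintype.card_pos_iff.2 ⟨x⟩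
    exact_mod_cast this
  have hlow : δ * (Fintype.card Δ : ℝ) ^ 2 * (Nat.card H : ℝ) ≤ ((∑ u : Δ, ∑ v : Δ, F u v : ℕ) : ℝ) := by
    rw [hdc]
    push_cast
    calc δ * (Fintype.card Δ : ℝ) ^ 2 * (Nat.card H : ℝ)
        = ∑ h : H, ∑ u : Δ, δ * (Fintype.card Δ : ℝ) := by
          rw [Finset.sum_const, Finset.sum_const, Finset.card_univ, Finset.card_univ,
            Nat.card_eq_fintype_card]
          simp only [nsmul_eq_mul]
          ring
      _ ≤ _ := Finset.sum_le_sum (fun h _ => Finset.sum_le_sum (fun u _ => hrow h u))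
  have hup : ((∑ u : Δ, ∑ v : Δ, F u v : ℕ) : ℝ) ≤ (Fintype.card Δ : ℝ) ^ 2 * (F x y : ℝ) := by
    have : ∑ u : Δ, ∑ v : Δ, F u v ≤ (Fintype.card Δ) ^ 2 * F x y := by
      calc ∑ u : Δ, ∑ v : Δ, F u v ≤ ∑ u : Δ, ∑ v : Δ, F x y :=
            Finset.sum_le_sum (fun u _ => Finset.sum_le_sum (fun v _ => hFle u v))
        _ = (Fintype.card Δ) ^ 2 * F x y := by
            rw [Finset.sum_const, Finset.sum_const, Finset.card_univ]
            simp only [smul_eq_mul]
            ring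
    exact_mod_cast this
  rw [hF0]
  have h3 : (Fintype.card Δ : ℝ) ^ 2 * (δ * (Nat.card H : ℝ)) ≤
      (Fintype.card Δ : ℝ) ^ 2 * (F x y : ℝ) := by linarith
  exact le_of_mul_le_mul_left h3 (by positivity)

theorem uni_sep' (htr : ∀ x y : Δ, ∃ h ∈ H, h x = y) (x₀ : Δ) (x y : Δ)
    (hD : Fintype.card Δ ≤ 8 * ({z : Δ | ∀ g ∈ H, g z = z → g x ≠ y}.ncard) ^ 2) :
    (1 / √(8 * (Fintype.card Δ : ℝ))) * (Nat.card H : ℝ) ≤
      (Nat.card {h : H // Sep H (fun _ : Fin 1 => h.1 x₀) x y} : ℝ) := by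
  classical
  set D : Finset Δ := Finset.univ.filter (fun z => ∀ g ∈ H, g z = z → g x ≠ y) with hDdef
  have hDc : {z : Δ | ∀ g ∈ H, g z = z → g x ≠ y}.ncard = D.card := by
    rw [← Set.ncard_coe_finset]
    congr 1
    ext z
    simp [hDdef]
  rw [hDc] at hD
  let F : Δ → ℕ := fun z => ((Finset.univ : Finset H).filter (fun h : H => h.1 x₀ = z)).card
  have hFc : ∀ z z', F z = F z' := by
    intro z z'
    obtain ⟨k, hk, hkz⟩ := htr z z'
    refine Finset.card_bij (fun (h : H) _ => (⟨k, hk⟩ : H) * h) ?_ ?_ ?_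
    · intro h hh
      rw [Finset.mem_filter] at hh ⊢
      refine ⟨Finset.mem_univ _, ?_⟩
      show k (h.1 x₀) = z'
      rw [hh.2, hkz]
    · intro a _ b _ hab
      exact mul_left_cancel hab
    · intro h hh
      rw [Finset.mem_filter] at hh
      refine ⟨(⟨k, hk⟩ : H)⁻¹ * h, ?_, by simp⟩
      rw [Finset.mem_filter]
      refine ⟨Finset.mem_univ _, ?_⟩
      show k⁻¹ (h.1 x₀) = z
      rw [hh.2, ← hkz]
      simp
  have hH : Nat.card H = Fintype.card Δ * F x₀ := by
    rw [Nat.card_eq_fintype_card, ← Finset.card_univ,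
      Finset.card_eq_sum_card_fiberwise (f := fun h : H => h.1 x₀) (t := Finset.univ)
        (fun _ _ => Finset.mem_coe.2 (Finset.mem_univ _))]
    rw [Finset.sum_congr rfl (fun z _ => hFc z x₀), Finset.sum_const, Finset.card_univ, smul_eq_mul]
  have hS : Nat.card {h : H // Sep H (fun _ : Fin 1 => h.1 x₀) x y} = D.card * F x₀ := by
    rw [Nat.card_eq_fintype_card, Fintype.card_subtype]
    have e1 : (Finset.univ.filter (fun h : H => Sep H (fun _ : Fin 1 => h.1 x₀) x y)) =
        Finset.univ.filter (fun h : H => h.1 x₀ ∈ D) := by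
      ext h
      simp only [Finset.mem_filter, Finset.mem_univ, true_and, Sep, hDdef]
      constructor
      · intro hs g hg h1
        exact hs g hg (fun _ => h1)
      · intro hs g hg h1
        exact hs g hg (h1 0)
    rw [e1, Finset.card_eq_sum_card_fiberwise (f := fun h : H => h.1 x₀) (t := D)
        (fun h hh => by
          rw [Finset.mem_coe, Finset.mem_filter] at hh
          exact Finset.mem_coe.2 hh.2)]
    rw [← smul_eq_mul, ← Finset.sum_const]
    refine Finset.sum_congr rfl (fun z hz => ?_)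
    rw [← hFc z x₀, Finset.filter_filter]
    congr 1
    ext h
    simp only [Finset.mem_filter, Finset.mem_univ, true_and]
    constructor
    · exact fun h => h.2
    · intro h
      refine ⟨?_, h⟩
      rw [h]
      exact hz
  have hn0 : (0 : ℝ) < Fintype.card Δ := by
    have : 0 < Fintype.card Δ := Fintype.card_pos_iff.2 ⟨x⟩
    exact_mod_cast this
  rw [hH, hS]
  push_cast
  have hs : 0 < √(8 * (Fintype.card Δ : ℝ)) := Real.sqrt_pos.2 (by positivity)
  have hs2 : √(8 * (Fintype.card Δ : ℝ)) ^ 2 = 8 * (Fintype.card Δ : ℝ) :=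
    Real.sq_sqrt (by positivity)
  have hD' : (Fintype.card Δ : ℝ) ≤ 8 * (D.card : ℝ) ^ 2 := by exact_mod_cast hD
  have h5 : (Fintype.card Δ : ℝ) ≤ √(8 * (Fintype.card Δ : ℝ)) * (D.card : ℝ) := by
    refine (sq_le_sq₀ (by positivity) (by positivity)).1 ?_
    rw [mul_pow, hs2]
    nlinarith
  rw [one_div, inv_mul_le_iff₀ hs]
  have hF : (0 : ℝ) ≤ F x₀ := by positivity
  nlinarith

end basics

end Pool.Agent.TH72.CF
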