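import Mathlib
import Pool.Agent.TH72.CF.Prim

set_option autoImplicit false

/-!
# Large primitive groups have distinguishing 2-colourings (CFSG-free): the theorem
-/

namespace Pool.Agent.TH72.CF

open Equiv Finset

theorem small_base {Δ : Type} [Fintype Δ] [DecidableEq Δ] (H : Subgroup (Perm Δ))
    (h2 : TwoTrans H) (hn : 17 ≤ Fintype.card Δ) (hA : ¬ alternatingGroup Δ ≤ H)
    (P : Finset ℕ) (hP : ∀ p ∈ P, p.Prime) (hP0 : P.Nonempty)
    (hPc : 12 * Nat.log 2 (Fintype.card Δ) < P.card) :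
    ∃ j : ℕ, j < ∑ p ∈ P, p ∧ 0 < j ∧ ∃ Z : Fin j → Δ, ∀ x : Δ, ((orb H Z x).ncard : ℝ) ≤
      (1 - 1 / (4 * ((∑ p ∈ P, p : ℕ) : ℝ))) * (Fintype.card Δ : ℝ) := by
  classical
  obtain ⟨k, hk⟩ : ∃ k : ℕ, ∑ p ∈ P, p = k := ⟨_, rfl⟩
  have hk0 : 0 < k := by
    rw [← hk]
    obtain ⟨p, hp⟩ := hP0
    exact lt_of_lt_of_le (hP p hp).pos (Finset.single_le_sum (f := fun p => p) (fun _ _ => Nat.zero_le _) hp)
  by_contra hcon
  have hlarge : ∀ j : ℕ, j < k → ∀ Z : Fin j → Δ, ∃ x : Δ,
      (1 - 1 / (4 * (k : ℝ))) * (Fintype.card Δ : ℝ) < ((orb H Z x).ncard : ℝ) := by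
    intro j hj Z
    rcases Nat.eq_zero_or_pos j with hj0 | hj0
    · subst hj0
      obtain ⟨x, y, hxy⟩ := Fintype.exists_pair_of_one_lt_card (show 1 < Fintype.card Δ by omega)
      refine ⟨x, ?_⟩
      have e : orb H Z x = Set.univ := by
        apply Set.eq_univ_of_forall
        intro z
        by_cases hz : z = x
        · exact ⟨1, H.one_mem, fun i => i.elim0, by simp [hz]⟩
        · obtain ⟨h, hh, h3, h4⟩ := h2 x z z x (Ne.symm hz) hz
          exact ⟨h, hh, fun i => i.elim0, h3⟩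
      rw [e, Set.ncard_univ, Nat.card_eq_fintype_card]
      have hkR : (0 : ℝ) < k := by exact_mod_cast hk0
      have hnR : (0 : ℝ) < Fintype.card Δ := by
        have : 0 < Fintype.card Δ := by omega
        exact_mod_cast this
      have : 0 < 1 / (4 * (k : ℝ)) := by positivity
      nlinarith
    · by_contra hc
      push Not at hc
      apply hcon
      rw [hk]
      exact ⟨j, hj, hj0, Z, hc⟩
  have hg := TH772.CF.giants H k hk0 (by omega) hlarge
  obtain ⟨g, hg, hg1, hg2⟩ := TH241.J547.small_support H P hP hP0 (by rw [hk]; exact hg)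
  have h5 := TH772.CF.min_degree H h2 hn hA g hg hg1
  have h6 : Fintype.card Δ * P.card ≤ Fintype.card Δ * (12 * Nat.log 2 (Fintype.card Δ)) := by
    calc Fintype.card Δ * P.card ≤ (12 * g.support.card) * P.card := Nat.mul_le_mul_right _ h5
      _ = 12 * (g.support.card * P.card) := by ring
      _ ≤ 12 * (Fintype.card Δ * Nat.log 2 (Fintype.card Δ)) := Nat.mul_le_mul_left _ hg2
      _ = Fintype.card Δ * (12 * Nat.log 2 (Fintype.card Δ)) := by ring
  have h7 := Nat.le_of_mul_le_mul_left h6 (by omega)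
  omega

/-- **Large primitive groups other than the alternating and symmetric groups have a 2-colouring
which is preserved by no nontrivial element and is mapped to its complement by no element.** -/
theorem prim_dist : ∃ m₀ : ℕ, 17 ≤ m₀ ∧ ∀ (Δ : Type) [Fintype Δ] [DecidableEq Δ]
    (H : Subgroup (Perm Δ)), MulAction.IsPreprimitive H Δ → m₀ ≤ Fintype.card Δ →
      ¬ alternatingGroup Δ ≤ H → ∃ α : Δ → Bool, Dist H α := by
  obtain ⟨N₁, hN₁⟩ := num1
  obtain ⟨N₂, hN₂⟩ := num2
  refine ⟨max 17 (max N₁ N₂), le_max_left _ _, ?_⟩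
  intro Δ _ _ H hprim hcard hA
  have h17 : 17 ≤ Fintype.card Δ := le_trans (le_max_left _ _) hcard
  have hn1 : N₁ ≤ Fintype.card Δ :=
    le_trans (le_trans (le_max_left _ _) (le_max_right _ _)) hcard
  have hn2 : N₂ ≤ Fintype.card Δ :=
    le_trans (le_trans (le_max_right _ _) (le_max_right _ _)) hcard
  have htr : ∀ x y : Δ, ∃ h ∈ H, h x = y := by
    intro x y
    haveI := hprim.toIsPretransitive
    obtain ⟨h, hh⟩ := MulAction.exists_smul_eq H x y
    exact ⟨h.1, h.2, hh⟩
  obtain ⟨n, hn⟩ : ∃ n : ℕ, Fintype.card Δ = n := ⟨_, rfl⟩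
  have hn17 : (17 : ℝ) ≤ n := by
    rw [← hn]
    exact_mod_cast h17
  have hlog : 0 ≤ Real.log n := Real.log_nonneg (by linarith)
  have hnpos : (0 : ℝ) < n := by linarith
  have hsqrt1 : 1 ≤ √(n : ℝ) := Real.one_le_sqrt.2 (by linarith)
  by_cases h2 : TwoTrans H
  · obtain ⟨P, hP, hP0, hPc, hPs⟩ := hN₂ _ hn2
    obtain ⟨j, hjk, hj0, Z, hZ⟩ := small_base H h2 h17 hA P hP hP0 hPc
    obtain ⟨k, hk⟩ : ∃ k : ℕ, ∑ p ∈ P, p = k := ⟨_, rfl⟩
    rw [hk] at hjk hZ hPs
    rw [hn] at hPs
    have hk0 : 0 < k := by omega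
    have hkR : (1 : ℝ) ≤ k := by exact_mod_cast hk0
    set δ : ℝ := 1 / (4 * (k : ℝ)) with hδ
    have hδ0 : 0 < δ := by positivity
    have hδ1 : δ ≤ 1 := by
      rw [hδ, div_le_one (by positivity)]
      linarith
    set t : ℕ := ⌈(2 * Real.log n + 2) / δ⌉₊ with ht
    have hpos : 0 < (2 * Real.log n + 2) / δ := by positivity
    have ht0 : 0 < t := Nat.ceil_pos.2 hpos
    have htle : (t : ℝ) ≤ 4 * k * (2 * Real.log n + 2) + 1 := by
      have := (Nat.ceil_lt_add_one hpos.le).le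
      calc (t : ℝ) ≤ (2 * Real.log n + 2) / δ + 1 := this
        _ = 4 * k * (2 * Real.log n + 2) + 1 := by
          rw [hδ]
          field_simp
    have hjt : ((j * t : ℕ) : ℝ) ≤ √(n : ℝ) * (20 * Real.log n + 20) := by
      have hk2 : (k : ℝ) ^ 2 ≤ √(n : ℝ) := by
        apply Real.le_sqrt_of_sq_le
        rw [← pow_mul]
        exact_mod_cast hPs
      have hj : (j : ℝ) ≤ k := by exact_mod_cast hjk.le
      push_cast
      calc (j : ℝ) * t ≤ k * (4 * k * (2 * Real.log n + 2) + 1) := by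
            apply mul_le_mul hj htle (by positivity) (by positivity)
        _ ≤ k * (4 * k * (2 * Real.log n + 2) + k) := by
            apply mul_le_mul_of_nonneg_left _ (by positivity)
            linarith
        _ = (k : ℝ) ^ 2 * (8 * Real.log n + 9) := by ring
        _ ≤ √(n : ℝ) * (8 * Real.log n + 9) := by
            apply mul_le_mul_of_nonneg_right hk2 (by positivity)
        _ ≤ √(n : ℝ) * (20 * Real.log n + 20) := by
            apply mul_le_mul_of_nonneg_left _ (by positivity)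
            linarith
    refine TH554.J545.count_lemma H htr j t hj0 ht0 Z δ hδ0.le hδ1 ?_ ?_ ?_
    · intro x y hxy
      exact two_sep H h2 Z δ hZ x y hxy
    · rw [hn]
      exact num3 n (by omega) δ hδ0 hδ1 t (Nat.le_ceil _)
    · rw [hn]
      rw [hn] at hn1
      exact hN₁ n hn1 (j * t) (by positivity) hjt
  · obtain ⟨x₀⟩ : Nonempty Δ := Fintype.card_pos_iff.1 (by omega)
    set δ : ℝ := 1 / √(8 * (n : ℝ)) with hδ
    have hs : 1 ≤ √(8 * (n : ℝ)) := Real.one_le_sqrt.2 (by linarith)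
    have hs3 : √(8 * (n : ℝ)) ≤ 3 * √(n : ℝ) := by
      rw [Real.sqrt_le_left (by positivity), mul_pow, Real.sq_sqrt hnpos.le]
      linarith
    have hδ0 : 0 < δ := by positivity
    have hδ1 : δ ≤ 1 := by
      rw [hδ, div_le_one (by positivity)]
      linarith
    set t : ℕ := ⌈(2 * Real.log n + 2) / δ⌉₊ with ht
    have hpos : 0 < (2 * Real.log n + 2) / δ := by positivity
    have ht0 : 0 < t := Nat.ceil_pos.2 hpos
    have htle : (t : ℝ) ≤ (2 * Real.log n + 2) * √(8 * (n : ℝ)) + 1 := by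
      have := (Nat.ceil_lt_add_one hpos.le).le
      calc (t : ℝ) ≤ (2 * Real.log n + 2) / δ + 1 := this
        _ = _ := by
          rw [hδ]
          field_simp
    have hjt : ((1 * t : ℕ) : ℝ) ≤ √(n : ℝ) * (20 * Real.log n + 20) := by
      push_cast
      rw [one_mul]
      calc (t : ℝ) ≤ (2 * Real.log n + 2) * √(8 * (n : ℝ)) + 1 := htle
        _ ≤ (2 * Real.log n + 2) * (3 * √(n : ℝ)) + √(n : ℝ) := by
            have := mul_le_mul_of_nonneg_left hs3 (show 0 ≤ 2 * Real.log n + 2 by linarith)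
            linarith
        _ = √(n : ℝ) * (6 * Real.log n + 7) := by ring
        _ ≤ √(n : ℝ) * (20 * Real.log n + 20) := by
            apply mul_le_mul_of_nonneg_left _ (by positivity)
            linarith
    refine TH554.J545.count_lemma H htr 1 t one_pos ht0 (fun _ => x₀) δ hδ0.le hδ1 ?_ ?_ ?_
    · intro x y hxy
      have := uni_sep' H htr x₀ x y (TH189.J550.uni_sep H hprim h2 x y hxy)
      rw [hn] at this
      exact this
    · rw [hn]
      exact num3 n (by omega) δ hδ0 hδ1 t (Nat.le_ceil _)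
    · rw [hn]
      rw [hn] at hn1
      exact hN₁ n hn1 (1 * t) (by positivity) hjt

end Pool.Agent.TH72.CF
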