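import Mathlib

set_option autoImplicit false

/-!
# Groups with a series whose factors are alternating or of bounded order
-/

namespace Pool.Agent.TH72.CF

open Equiv

/-- one step of a series -/
def Step (g₀ : ℕ) {K : Type} [Group K] (A B : Subgroup K) : Prop :=
  B ≤ A ∧ (B.subgroupOf A).Normal ∧
    ((B.subgroupOf A).index < g₀ ∨ ∃ m : ℕ, ∃ φ : ↥A →* ↥(alternatingGroup (Fin m)),
      Function.Surjective φ ∧ φ.ker = B.subgroupOf A)

/-- a series from `A` down to `B` -/
def Ser (g₀ : ℕ) {K : Type} [Group K] (A B : Subgroup K) : Prop :=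
  Relation.ReflTransGen (Step g₀) A B

/-- the whole group has such a series -/
def Good (g₀ : ℕ) (K : Type) [Group K] : Prop := Ser g₀ (⊤ : Subgroup K) ⊥

theorem step_comap {g₀ : ℕ} {K L : Type} [Group K] [Group L] (φ : K →* L)
    (hφ : Function.Surjective φ) {A B : Subgroup L} (h : Step g₀ A B) :
    Step g₀ (A.comap φ) (B.comap φ) := by
  obtain ⟨h1, h2, h3⟩ := h
  have key : (B.comap φ).subgroupOf (A.comap φ) = (B.subgroupOf A).comap (φ.subgroupComap A) := by
    ext x
    rfl
  have hs : Function.Surjective (φ.subgroupComap A) := by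
    rintro ⟨y, hy⟩
    obtain ⟨x, rfl⟩ := hφ y
    exact ⟨⟨x, hy⟩, rfl⟩
  refine ⟨Subgroup.comap_mono h1, ?_, ?_⟩
  · rw [key]
    exact h2.comap _
  · rcases h3 with h3 | ⟨m, f, hf1, hf2⟩
    · left
      rw [key, Subgroup.index_comap_of_surjective _ hs]
      exact h3
    · right
      refine ⟨m, f.comp (φ.subgroupComap A), hf1.comp hs, ?_⟩
      rw [key, ← hf2]
      rfl

theorem step_map {g₀ : ℕ} {K L : Type} [Group K] [Group L] (φ : K →* L)
    (hφ : Function.Injective φ) {A B : Subgroup K} (h : Step g₀ A B) :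
    Step g₀ (A.map φ) (B.map φ) := by
  obtain ⟨h1, h2, h3⟩ := h
  let e : A ≃* A.map φ := A.equivMapOfInjective φ hφ
  have key : (B.map φ).subgroupOf (A.map φ) = (B.subgroupOf A).comap (e.symm : A.map φ →* A) := by
    ext x
    obtain ⟨y, rfl⟩ := e.surjective x
    rw [Subgroup.mem_comap, MonoidHom.coe_coe, e.symm_apply_apply, Subgroup.mem_subgroupOf,
      Subgroup.mem_subgroupOf]
    have : ((e y : A.map φ) : L) = φ y := rfl
    rw [this]
    constructor
    · rintro ⟨z, hz, hz'⟩
      rw [← hφ hz']
      exact hz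
    · intro hy
      exact ⟨_, hy, rfl⟩
  have hs : Function.Surjective (e.symm : A.map φ →* A) := e.symm.surjective
  refine ⟨Subgroup.map_mono h1, ?_, ?_⟩
  · rw [key]
    exact h2.comap _
  · rcases h3 with h3 | ⟨m, f, hf1, hf2⟩
    · left
      rw [key, Subgroup.index_comap_of_surjective _ hs]
      exact h3
    · right
      refine ⟨m, f.comp (e.symm : A.map φ →* A), hf1.comp hs, ?_⟩
      rw [key, ← hf2]
      rfl

theorem ser_comap {g₀ : ℕ} {K L : Type} [Group K] [Group L] (φ : K →* L)
    (hφ : Function.Surjective φ) {A B : Subgroup L} (h : Ser g₀ A B) :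
    Ser g₀ (A.comap φ) (B.comap φ) := by
  induction h with
  | refl => exact Relation.ReflTransGen.refl
  | tail _ h2 ih => exact ih.tail (step_comap φ hφ h2)

theorem ser_map {g₀ : ℕ} {K L : Type} [Group K] [Group L] (φ : K →* L)
    (hφ : Function.Injective φ) {A B : Subgroup K} (h : Ser g₀ A B) :
    Ser g₀ (A.map φ) (B.map φ) := by
  induction h with
  | refl => exact Relation.ReflTransGen.refl
  | tail _ h2 ih => exact ih.tail (step_map φ hφ h2)

theorem good_ext {g₀ : ℕ} {K L : Type} [Group K] [Group L] (φ : K →* L)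
    (h1 : Good g₀ φ.range) (h2 : Good g₀ φ.ker) : Good g₀ K := by
  have a := ser_comap φ.rangeRestrict φ.rangeRestrict_surjective h1
  have b := ser_map φ.ker.subtype φ.ker.subtype_injective h2
  rw [Subgroup.comap_top] at a
  rw [Subgroup.map_bot, ← MonoidHom.range_eq_map, Subgroup.range_subtype] at b
  have e : (⊥ : Subgroup φ.range).comap φ.rangeRestrict = φ.ker := by
    rw [← MonoidHom.ker_rangeRestrict φ]
    rfl
  rw [e] at a
  exact a.trans b

theorem good_equiv {g₀ : ℕ} {K L : Type} [Group K] [Group L] (e : K ≃* L) (h : Good g₀ K) :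
    Good g₀ L := by
  have b := ser_map (e : K →* L) e.injective h
  rw [Subgroup.map_bot, ← MonoidHom.range_eq_map,
    MonoidHom.range_eq_top.2 (show Function.Surjective (e : K →* L) from e.surjective)] at b
  exact b

theorem good_of_card {g₀ : ℕ} {K : Type} [Group K] (h : Nat.card K < g₀) : Good g₀ K := by
  refine Relation.ReflTransGen.single ⟨bot_le, ?_, Or.inl ?_⟩
  · rw [Subgroup.bot_subgroupOf]
    infer_instance
  · rw [Subgroup.bot_subgroupOf, Subgroup.index_bot, Nat.card_congr (Subgroup.topEquiv).toEquiv]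
    exact h

theorem good_alt {g₀ : ℕ} {K : Type} [Group K] {m : ℕ} (e : K ≃* alternatingGroup (Fin m)) :
    Good g₀ K := by
  refine Relation.ReflTransGen.single ⟨bot_le, ?_, Or.inr ⟨m, ?_⟩⟩
  · rw [Subgroup.bot_subgroupOf]
    infer_instance
  · refine ⟨(e : K →* _).comp (Subgroup.topEquiv : (⊤ : Subgroup K) ≃* K).toMonoidHom, ?_, ?_⟩
    · exact e.surjective.comp Subgroup.topEquiv.surjective
    · rw [Subgroup.bot_subgroupOf]
      rw [MonoidHom.ker_eq_bot_iff]
      exact e.injective.comp Subgroup.topEquiv.injective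

/-- a subdirect product of groups with good normal subgroups -/
theorem good_iter {g₀ : ℕ} {N : Type} [Group N] {ι D : Type} [Group D] (s : Finset ι)
    (ρ : ι → N →* D)
    (hgood : ∀ i ∈ s, ∀ M : Subgroup D, M ≤ (ρ i).range →
      (∀ r ∈ (ρ i).range, ∀ m ∈ M, r * m * r⁻¹ ∈ M) → Good g₀ M) :
    Ser g₀ (⊤ : Subgroup N) (⨅ i ∈ s, (ρ i).ker) := by
  classical
  induction s using Finset.induction_on with
  | empty =>
    simp only [Finset.notMem_empty, iInf_false, iInf_top]
    exact Relation.ReflTransGen.refl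
  | insert a s ha ih =>
    have ih' := ih (fun i hi => hgood i (Finset.mem_insert_of_mem hi))
    refine ih'.trans ?_
    set Ns : Subgroup N := ⨅ i ∈ s, (ρ i).ker with hNs
    have hNsn : Ns.Normal := by
      rw [hNs]
      refine Subgroup.normal_iInf_normal (fun i => ?_)
      refine Subgroup.normal_iInf_normal (fun hi => ?_)
      infer_instance
    let φ : Ns →* D := (ρ a).comp Ns.subtype
    have hM : Good g₀ φ.range := by
      refine hgood a (Finset.mem_insert_self a s) φ.range ?_ ?_
      · rintro _ ⟨x, rfl⟩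
        exact ⟨x, rfl⟩
      · rintro _ ⟨y, rfl⟩ _ ⟨x, rfl⟩
        refine ⟨⟨y * x * y⁻¹, hNsn.conj_mem x x.2 y⟩, ?_⟩
        simp [φ]
    have a1 := ser_comap φ.rangeRestrict φ.rangeRestrict_surjective hM
    rw [Subgroup.comap_top] at a1
    have e : (⊥ : Subgroup φ.range).comap φ.rangeRestrict = φ.ker := by
      rw [← MonoidHom.ker_rangeRestrict φ]
      rfl
    rw [e] at a1
    have a2 := ser_map Ns.subtype Ns.subtype_injective a1
    rw [← MonoidHom.range_eq_map, Subgroup.range_subtype] at a2
    have e2 : φ.ker.map Ns.subtype = ⨅ i ∈ insert a s, (ρ i).ker := by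
      rw [Finset.iInf_insert, ← hNs]
      ext x
      constructor
      · rintro ⟨y, hy, rfl⟩
        exact ⟨hy, y.2⟩
      · rintro ⟨h1, h2⟩
        exact ⟨⟨x, h2⟩, h1, rfl⟩
    rw [e2] at a2
    exact a2

/-- normal subgroups of normal subgroups of groups which contain the alternating group or have
small degree -/
theorem good_prim {g₀ m₀ : ℕ} (hg₀ : m₀.factorial < g₀) (hg₁ : 2 < g₀) {Δ : Type} [Fintype Δ]
    [DecidableEq Δ] (H R M : Subgroup (Perm Δ))
    (hRH : ∀ h ∈ H, ∀ r ∈ R, h * r * h⁻¹ ∈ R) (hMR : ∀ r ∈ R, ∀ m ∈ M, r * m * r⁻¹ ∈ M)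
    (hM : M ≤ R) (hcase : Fintype.card Δ < m₀ ∨ (alternatingGroup Δ ≤ H ∧ 5 ≤ Fintype.card Δ)) :
    Good g₀ M := by
  rcases hcase with hc | ⟨hA, h5⟩
  · apply good_of_card
    refine lt_of_le_of_lt ?_ hg₀
    calc Nat.card M ≤ Nat.card (Perm Δ) := Nat.card_le_card_of_injective _ M.subtype_injective
      _ = (Fintype.card Δ).factorial := by rw [Nat.card_eq_fintype_card, Fintype.card_perm]
      _ ≤ m₀.factorial := Nat.factorial_le hc.le
  · have key : ∀ S T : Subgroup (Perm Δ), alternatingGroup Δ ≤ S →
        (∀ h ∈ S, ∀ r ∈ T, h * r * h⁻¹ ∈ T) →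
        (T ⊓ alternatingGroup Δ = ⊥ ∨ alternatingGroup Δ ≤ T) := by
      intro S T hS hT
      have hn : (T.subgroupOf (alternatingGroup Δ)).Normal := by
        refine ⟨fun n hn g => ?_⟩
        rw [Subgroup.mem_subgroupOf] at hn ⊢
        exact hT g (hS g.2) n hn
      have h5' : 5 ≤ Nat.card Δ := by rwa [Nat.card_eq_fintype_card]
      have hsim := alternatingGroup.isSimpleGroup (α := Δ) h5'
      rcases hsim.eq_bot_or_eq_top_of_normal _ hn with h | h
      · left
        rwa [Subgroup.subgroupOf_eq_bot, disjoint_iff] at h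
      · right
        rwa [Subgroup.subgroupOf_eq_top] at h
    -- the sign map of `M`
    let φ : M →* ℤˣ := Perm.sign.comp M.subtype
    apply good_ext φ
    · apply good_of_card
      refine lt_of_le_of_lt ?_ hg₁
      calc Nat.card φ.range ≤ Nat.card ℤˣ :=
            Nat.card_le_card_of_injective _ φ.range.subtype_injective
        _ ≤ 2 := by rw [Nat.card_eq_fintype_card, Fintype.card_units_int]
    · -- the kernel
      have hker : ∀ x : M, x ∈ φ.ker ↔ (x : Perm Δ) ∈ alternatingGroup Δ := by
        intro x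
        rw [MonoidHom.mem_ker, Perm.mem_alternatingGroup]
        rfl
      by_cases hMA : M ⊓ alternatingGroup Δ = ⊥
      · apply good_of_card
        have : Subsingleton φ.ker := by
          refine ⟨fun x y => ?_⟩
          have hx : ∀ x : φ.ker, x = 1 := by
            intro x
            have h1 : ((x : M) : Perm Δ) ∈ M ⊓ alternatingGroup Δ := ⟨(x : M).2, (hker x).1 x.2⟩
            rw [hMA, Subgroup.mem_bot] at h1
            exact Subtype.ext (Subtype.ext h1)
          rw [hx x, hx y]
        rw [Nat.card_of_subsingleton (1 : φ.ker)]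
        omega
      · have hR : alternatingGroup Δ ≤ R := by
          rcases key H R hA hRH with h | h
          · exfalso
            apply hMA
            rw [eq_bot_iff, ← h]
            exact inf_le_inf_right _ hM
          · exact h
        have hAM : alternatingGroup Δ ≤ M := by
          rcases key R M hR hMR with h | h
          · exact absurd h hMA
          · exact h
        -- the kernel is the alternating group
        let e1 : φ.ker ≃* alternatingGroup Δ :=
          { toFun := fun x => ⟨((x : M) : Perm Δ), (hker x).1 x.2⟩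
            invFun := fun y => ⟨⟨y, hAM y.2⟩, (hker _).2 y.2⟩
            left_inv := fun x => rfl
            right_inv := fun y => rfl
            map_mul' := fun x y => rfl }
        exact good_alt (e1.trans (Equiv.altCongrHom (Fintype.equivFin Δ)))

end Pool.Agent.TH72.CF
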