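import Mathlib
import Pool.Agent.TH72.CF.Defs
import Pool.Agent.TH72.CF.Good

set_option autoImplicit false

/-!
# Induction along a system of minimal blocks
-/

namespace Pool.Agent.TH72.CF

open Equiv

theorem ais {α : Type} (f : Perm α) (x : α) : f (f⁻¹ x) = x := f.apply_symm_apply x

theorem ias {α : Type} (f : Perm α) (x : α) : f⁻¹ (f x) = x := f.symm_apply_apply x

/-- colour preserving subgroup -/
def stab {Ω : Type} (G : Subgroup (Perm Ω)) (c : Ω → Bool) : Subgroup (Perm Ω) where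
  carrier := {g | g ∈ G ∧ ∀ x, c (g x) = c x}
  mul_mem' := by
    rintro a b ⟨ha, ha'⟩ ⟨hb, hb'⟩
    exact ⟨G.mul_mem ha hb, fun x => by rw [Perm.mul_apply, ha', hb']⟩
  one_mem' := ⟨G.one_mem, fun x => rfl⟩
  inv_mem' := by
    rintro a ⟨ha, ha'⟩
    refine ⟨G.inv_mem ha, fun x => ?_⟩
    have := ha' (a⁻¹ x)
    rw [ais] at this
    exact this.symm

theorem mem_stab {Ω : Type} {G : Subgroup (Perm Ω)} {c : Ω → Bool} {g : Perm Ω} :
    g ∈ stab G c ↔ g ∈ G ∧ ∀ x, c (g x) = c x := Iff.rfl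

/-- `B` is a block for `G` -/
def IsBlk {Ω : Type} (G : Subgroup (Perm Ω)) (B : Set Ω) : Prop :=
  ∀ g ∈ G, ∀ x ∈ B, g x ∈ B → ∀ y ∈ B, g y ∈ B

section
variable {Ω : Type} (G : Subgroup (Perm Ω)) (B : Set Ω) (hB : IsBlk G B)

/-- the equivalence relation whose nontrivial classes are the translates of `B` -/
def setoid : Setoid Ω where
  r x y := x = y ∨ ∃ g ∈ G, g x ∈ B ∧ g y ∈ B
  iseqv := by
    refine ⟨fun x => Or.inl rfl, ?_, ?_⟩
    · rintro x y (rfl | ⟨g, hg, h1, h2⟩)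
      · exact Or.inl rfl
      · exact Or.inr ⟨g, hg, h2, h1⟩
    · rintro x y z (rfl | ⟨g, hg, h1, h2⟩) h
      · exact h
      · rcases h with rfl | ⟨k, hk, h3, h4⟩
        · exact Or.inr ⟨g, hg, h1, h2⟩
        · refine Or.inr ⟨k, hk, ?_, h4⟩
          have := hB (k * g⁻¹) (G.mul_mem hk (G.inv_mem hg)) (g y) h2 (by simpa using h3) (g x) h1
          simpa using this

/-- the set of classes -/
abbrev XX : Type := Quotient (setoid G B hB)

/-- the class of a point -/
def cl (x : Ω) : XX G B hB := Quotient.mk _ x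

variable {G B}

theorem cl_eq {x y : Ω} : cl G B hB x = cl G B hB y ↔ (x = y ∨ ∃ g ∈ G, g x ∈ B ∧ g y ∈ B) := by
  unfold cl
  rw [Quotient.eq]
  rfl

theorem cl_smul {x y : Ω} (g : Perm Ω) (hg : g ∈ G) (h : cl G B hB x = cl G B hB y) :
    cl G B hB (g x) = cl G B hB (g y) := by
  rw [cl_eq] at h ⊢
  rcases h with rfl | ⟨k, hk, h1, h2⟩
  · exact Or.inl rfl
  · exact Or.inr ⟨k * g⁻¹, G.mul_mem hk (G.inv_mem hg), by simpa using h1, by simpa using h2⟩

/-- action on the classes -/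
def act : G →* Perm (XX G B hB) where
  toFun g :=
    { toFun := Quotient.map (fun x => g.1 x) (fun x y h => by
        have := cl_smul hB g.1 g.2 (show cl G B hB x = cl G B hB y from Quotient.sound h)
        exact Quotient.exact this)
      invFun := Quotient.map (fun x => g.1⁻¹ x) (fun x y h => by
        have := cl_smul hB g.1⁻¹ (G.inv_mem g.2)
          (show cl G B hB x = cl G B hB y from Quotient.sound h)
        exact Quotient.exact this)
      left_inv := by
        rintro ⟨x⟩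
        change Quotient.mk _ (g.1⁻¹ (g.1 x)) = _
        rw [ias]
        rfl
      right_inv := by
        rintro ⟨x⟩
        change Quotient.mk _ (g.1 (g.1⁻¹ x)) = _
        rw [ais]
        rfl }
  map_one' := by
    ext ⟨x⟩
    rfl
  map_mul' g k := by
    ext ⟨x⟩
    rfl

theorem act_cl (g : G) (x : Ω) : act hB g (cl G B hB x) = cl G B hB (g.1 x) := rfl

theorem cl_surj (q : XX G B hB) : ∃ x, cl G B hB x = q := by
  obtain ⟨x⟩ := q
  exact ⟨x, rfl⟩

/-- the classes which are translates of `B` -/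
def PP (q : XX G B hB) : Prop := ∃ g ∈ G, ∀ x, cl G B hB x = q → g x ∈ B

theorem PP_cl {x : Ω} : PP hB (cl G B hB x) ↔ ∃ g ∈ G, g x ∈ B := by
  constructor
  · rintro ⟨g, hg, h⟩
    exact ⟨g, hg, h x rfl⟩
  · rintro ⟨g, hg, h⟩
    refine ⟨g, hg, fun y hy => ?_⟩
    rw [cl_eq] at hy
    rcases hy with rfl | ⟨k, hk, h1, h2⟩
    · exact h
    · have := hB (g * k⁻¹) (G.mul_mem hg (G.inv_mem hk)) (k x) h2 (by simpa using h) (k y) h1
      simpa using this

open Classical in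
/-- an element moving the class to `B` -/
noncomputable def sel (q : XX G B hB) : Perm Ω := if h : PP hB q then h.choose else 1

theorem sel_mem (q : XX G B hB) : sel hB q ∈ G := by
  unfold sel
  split_ifs with h
  · exact h.choose_spec.1
  · exact G.one_mem

theorem sel_B {q : XX G B hB} (h : PP hB q) {x : Ω} (hx : cl G B hB x = q) : sel hB q x ∈ B := by
  unfold sel
  rw [dif_pos h]
  exact h.choose_spec.2 x hx

theorem sel_B_iff {q : XX G B hB} (h : PP hB q) {y : Ω} : sel hB q y ∈ B ↔ cl G B hB y = q := by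
  constructor
  · intro hy
    obtain ⟨x, rfl⟩ := cl_surj hB q
    rw [cl_eq]
    exact Or.inr ⟨sel hB _, sel_mem hB _, hy, sel_B hB h rfl⟩
  · exact sel_B hB h

/-- the group induced on the block by its stabilizer -/
def HH (G : Subgroup (Perm Ω)) (B : Set Ω) : Subgroup (Perm B) where
  carrier := {h | ∃ g ∈ G, ∀ x : B, (h x : Ω) = g x}
  mul_mem' := by
    rintro h k ⟨g, hg, hg'⟩ ⟨l, hl, hl'⟩
    refine ⟨g * l, G.mul_mem hg hl, fun x => ?_⟩
    rw [Perm.mul_apply, hg', hl', Perm.mul_apply]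
  one_mem' := ⟨1, G.one_mem, fun x => rfl⟩
  inv_mem' := by
    rintro h ⟨g, hg, hg'⟩
    refine ⟨g⁻¹, G.inv_mem hg, fun x => ?_⟩
    rw [Perm.eq_inv_iff_eq, ← hg', ais]

theorem mem_HH {h : Perm B} : h ∈ HH G B ↔ ∃ g ∈ G, ∀ x : B, (h x : Ω) = g x := Iff.rfl

/-- restriction of a permutation to a set -/
def res (B : Set Ω) (k : Perm Ω) (h1 : ∀ b ∈ B, k b ∈ B) (h2 : ∀ b ∈ B, k⁻¹ b ∈ B) : Perm B where
  toFun b := ⟨k b, h1 b b.2⟩
  invFun b := ⟨k⁻¹ b, h2 b b.2⟩
  left_inv b := by ext; simp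
  right_inv b := by ext; simp

theorem res_mem {k : Perm Ω} (hk : k ∈ G) (h1 : ∀ b ∈ B, k b ∈ B) (h2 : ∀ b ∈ B, k⁻¹ b ∈ B) :
    res B k h1 h2 ∈ HH G B := ⟨k, hk, fun _ => rfl⟩

theorem sel_inv {q : XX G B hB} (h : PP hB q) {b : Ω} (hb : b ∈ B) :
    cl G B hB ((sel hB q)⁻¹ b) = q := by
  rw [← sel_B_iff hB h]
  simpa using hb

theorem PP_smul {g : Perm Ω} (hg : g ∈ G) {x : Ω} :
    PP hB (cl G B hB (g x)) ↔ PP hB (cl G B hB x) := by
  rw [PP_cl, PP_cl]
  constructor
  · rintro ⟨k, hk, h⟩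
    exact ⟨k * g, G.mul_mem hk hg, h⟩
  · rintro ⟨k, hk, h⟩
    exact ⟨k * g⁻¹, G.mul_mem hk (G.inv_mem hg), by simpa using h⟩

theorem conj_maps {g : Perm Ω} (hg : g ∈ G) {x : Ω} (hx : PP hB (cl G B hB x)) :
    ∀ b ∈ B, (sel hB (cl G B hB (g x)) * g * (sel hB (cl G B hB x))⁻¹) b ∈ B := by
  intro b hb
  have h1 : cl G B hB ((sel hB (cl G B hB x))⁻¹ b) = cl G B hB x := sel_inv hB hx hb
  rw [Perm.mul_apply, Perm.mul_apply]
  exact sel_B hB ((PP_smul hB hg).2 hx) (cl_smul hB g hg h1)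

theorem conj_maps_inv {g : Perm Ω} (hg : g ∈ G) {x : Ω} (hx : PP hB (cl G B hB x)) :
    ∀ b ∈ B, (sel hB (cl G B hB (g x)) * g * (sel hB (cl G B hB x))⁻¹)⁻¹ b ∈ B := by
  intro b hb
  have hx' := (PP_smul hB hg).2 hx
  have h1 : cl G B hB ((sel hB (cl G B hB (g x)))⁻¹ b) = cl G B hB (g x) := sel_inv hB hx' hb
  have h2 := cl_smul hB g⁻¹ (G.inv_mem hg) h1
  rw [ias] at h2
  have h3 := sel_B hB hx h2
  simpa [mul_assoc] using h3

/-- transport between classes, as an element of the group of the block -/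
theorem conj_exists {g : Perm Ω} (hg : g ∈ G) {x : Ω} (hx : PP hB (cl G B hB x)) :
    ∃ h ∈ HH G B, ∀ b : B,
      (h b : Ω) = sel hB (cl G B hB (g x)) (g ((sel hB (cl G B hB x))⁻¹ b)) :=
  ⟨res B (sel hB (cl G B hB (g x)) * g * (sel hB (cl G B hB x))⁻¹) (conj_maps hB hg hx)
    (conj_maps_inv hB hg hx), res_mem (G.mul_mem (G.mul_mem (sel_mem hB _) hg)
      (G.inv_mem (sel_mem hB _))) _ _, fun _ => rfl⟩

open Classical in
/-- the colouring of the points given by a colouring of the block -/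
noncomputable def hat (α : B → Bool) (x : Ω) : Bool :=
  if h : sel hB (cl G B hB x) x ∈ B then α ⟨sel hB (cl G B hB x) x, h⟩ else false

theorem hat_not {α : B → Bool} {x : Ω} (h : ¬ PP hB (cl G B hB x)) : hat hB α x = false := by
  unfold hat
  rw [dif_neg]
  intro h'
  exact h ((PP_cl hB).2 ⟨_, sel_mem hB _, h'⟩)

theorem hat_of {α : B → Bool} {x y : Ω} (h : PP hB (cl G B hB x))
    (hy : cl G B hB y = cl G B hB x) (b : B) (hb : (b : Ω) = sel hB (cl G B hB x) y) :
    hat hB α y = α b := by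
  have hy' : sel hB (cl G B hB y) y = b := by rw [hy, hb]
  unfold hat
  rw [dif_pos (by rw [hy']; exact b.2)]
  congr 1
  exact Subtype.ext hy'

/-- first key property -/
theorem key1 {α : B → Bool} (hα : ∀ h ∈ HH G B, ¬ ∀ x, α (h x) = !(α x)) {g : Perm Ω} (hg : g ∈ G)
    (κ : XX G B hB → Bool)
    (h : ∀ x, xor (hat hB α (g x)) (κ (cl G B hB (g x))) = xor (hat hB α x) (κ (cl G B hB x)))
    (x : Ω) : hat hB α (g x) = hat hB α x ∧ κ (cl G B hB (g x)) = κ (cl G B hB x) := by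
  by_cases hx : PP hB (cl G B hB x)
  · obtain ⟨k, hk, hkb⟩ := conj_exists hB hg hx
    have hx' := (PP_smul hB hg).2 hx
    have key : ∀ b : B, xor (α (k b)) (κ (cl G B hB (g x))) = xor (α b) (κ (cl G B hB x)) := by
      intro b
      set y := (sel hB (cl G B hB x))⁻¹ (b : Ω) with hy
      have h1 : cl G B hB y = cl G B hB x := sel_inv hB hx b.2
      have h2 : cl G B hB (g y) = cl G B hB (g x) := cl_smul hB g hg h1
      have h3 : hat hB α y = α b := hat_of hB hx h1 b (by rw [hy, ais])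
      have h4 : hat hB α (g y) = α (k b) := hat_of hB hx' h2 (k b) (hkb b)
      have h5 := h y
      rw [h1, h2, h3, h4] at h5
      exact h5
    have hκ : κ (cl G B hB (g x)) = κ (cl G B hB x) := by
      by_contra hne
      apply hα k hk
      intro b
      have := key b
      revert this hne
      generalize α (k b) = a1
      generalize α b = a2
      generalize κ (cl G B hB (g x)) = a3
      generalize κ (cl G B hB x) = a4
      revert a1 a2 a3 a4
      decide
    refine ⟨?_, hκ⟩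
    have := h x
    rw [hκ] at this
    revert this
    generalize hat hB α (g x) = a1
    generalize hat hB α x = a2
    generalize κ (cl G B hB x) = a3
    revert a1 a2 a3
    decide
  · have hx' : ¬ PP hB (cl G B hB (g x)) := fun h => hx ((PP_smul hB hg).1 h)
    have h1 := hat_not hB (α := α) hx
    have h2 := hat_not hB (α := α) hx'
    refine ⟨by rw [h1, h2], ?_⟩
    have := h x
    rw [h1, h2] at this
    simpa using this

/-- second key property -/
theorem key2 {α : B → Bool} (hα : ∀ h ∈ HH G B, (∀ x, α (h x) = α x) → h = 1) {g : Perm Ω}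
    (hg : g ∈ G) (h : ∀ x, hat hB α (g x) = hat hB α x)
    (h' : ∀ x, cl G B hB (g x) = cl G B hB x) : g = 1 := by
  ext x
  by_cases hx : PP hB (cl G B hB x)
  · obtain ⟨k, hk, hkb⟩ := conj_exists hB hg hx
    have hx' := (PP_smul hB hg).2 hx
    have hk1 : k = 1 := by
      apply hα k hk
      intro b
      set y := (sel hB (cl G B hB x))⁻¹ (b : Ω) with hy
      have h1 : cl G B hB y = cl G B hB x := sel_inv hB hx b.2
      have h2 : cl G B hB (g y) = cl G B hB (g x) := cl_smul hB g hg h1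
      have h3 : hat hB α y = α b := hat_of hB hx h1 b (by rw [hy, ais])
      have h4 : hat hB α (g y) = α (k b) := hat_of hB hx' h2 (k b) (hkb b)
      rw [← h3, ← h4, h y]
    have h5 := hkb ⟨sel hB (cl G B hB x) x, sel_B hB hx rfl⟩
    rw [hk1, Perm.one_apply, h' x, ias] at h5
    exact (Equiv.injective _ h5).symm
  · have h1 := h' x
    rw [cl_eq] at h1
    rcases h1 with h1 | ⟨k, hk, _, h2⟩
    · exact h1
    · exact absurd ((PP_cl hB).2 ⟨k, hk, h2⟩) hx

/-- the kernel of the action on the classes -/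
def NN : Subgroup (Perm Ω) where
  carrier := {n | n ∈ G ∧ ∀ x, cl G B hB (n x) = cl G B hB x}
  mul_mem' := by
    rintro a b ⟨ha, ha'⟩ ⟨hb, hb'⟩
    exact ⟨G.mul_mem ha hb, fun x => by rw [Perm.mul_apply, ha', hb']⟩
  one_mem' := ⟨G.one_mem, fun x => rfl⟩
  inv_mem' := by
    rintro a ⟨ha, ha'⟩
    refine ⟨G.inv_mem ha, fun x => ?_⟩
    have := ha' (a⁻¹ x)
    rw [ais] at this
    exact this.symm

theorem NN_conj {g n : Perm Ω} (hg : g ∈ G) (hn : n ∈ NN hB) : g * n * g⁻¹ ∈ NN hB := by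
  refine ⟨G.mul_mem (G.mul_mem hg hn.1) (G.inv_mem hg), fun x => ?_⟩
  have h1 := hn.2 (g⁻¹ x)
  have h2 := cl_smul hB g hg h1
  rw [ais] at h2
  exact h2

theorem NN_maps {n : Perm Ω} (hn : n ∈ NN hB) {q : XX G B hB} (hq : PP hB q) :
    ∀ b ∈ B, (sel hB q * n * (sel hB q)⁻¹) b ∈ B := by
  intro b hb
  have h1 : cl G B hB ((sel hB q)⁻¹ b) = q := sel_inv hB hq hb
  have h2 := hn.2 ((sel hB q)⁻¹ b)
  rw [h1] at h2
  exact sel_B hB hq h2

theorem NN_maps' {n : Perm Ω} (hn : n ∈ NN hB) {q : XX G B hB} (hq : PP hB q) :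
    ∀ b ∈ B, (sel hB q * n * (sel hB q)⁻¹)⁻¹ b ∈ B := by
  intro b hb
  have := NN_maps hB ((NN hB).inv_mem hn) hq b hb
  simpa [mul_assoc] using this

/-- restriction of the kernel to a class -/
noncomputable def rho (q : {q : XX G B hB // PP hB q}) : NN hB →* Perm B where
  toFun n := res B (sel hB q.1 * n.1 * (sel hB q.1)⁻¹) (NN_maps hB n.2 q.2) (NN_maps' hB n.2 q.2)
  map_one' := by
    ext b
    change (sel hB q.1 * 1 * (sel hB q.1)⁻¹) (b : Ω) = b
    simp
  map_mul' n m := by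
    ext b
    change (sel hB q.1 * (n.1 * m.1) * (sel hB q.1)⁻¹) (b : Ω) =
      (sel hB q.1 * n.1 * (sel hB q.1)⁻¹) ((sel hB q.1 * m.1 * (sel hB q.1)⁻¹) (b : Ω))
    simp

theorem rho_apply (q : {q : XX G B hB // PP hB q}) (n : NN hB) (b : B) :
    (rho hB q n b : Ω) = sel hB q.1 (n.1 ((sel hB q.1)⁻¹ b)) := rfl

theorem rho_conj (q : {q : XX G B hB // PP hB q}) {h : Perm B} (hh : h ∈ HH G B) {r : Perm B}
    (hr : r ∈ (rho hB q).range) : h * r * h⁻¹ ∈ (rho hB q).range := by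
  obtain ⟨n, rfl⟩ := hr
  obtain ⟨g, hg, hgh⟩ := hh
  have hk : (sel hB q.1)⁻¹ * g * sel hB q.1 ∈ G :=
    G.mul_mem (G.mul_mem (G.inv_mem (sel_mem hB _)) hg) (sel_mem hB _)
  refine ⟨⟨_, NN_conj hB hk n.2⟩, ?_⟩
  ext b
  have h0 : ((h * rho hB q n * h⁻¹) b : Ω) = g ((rho hB q n (h⁻¹ b) : B) : Ω) := by
    rw [Perm.mul_apply, Perm.mul_apply, hgh]
  rw [h0, rho_apply, rho_apply]
  have h1 : ((h⁻¹ b : B) : Ω) = g⁻¹ (b : Ω) := by
    rw [Perm.eq_inv_iff_eq, ← hgh, ais]
  rw [h1]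
  simp [mul_assoc]

theorem NN_good [Fintype Ω] [DecidableEq Ω] [Fintype B] {g₀ m₀ : ℕ} (hg₀ : m₀.factorial < g₀) (hg₁ : 2 < g₀)
    (hcase : Fintype.card B < m₀ ∨ (alternatingGroup B ≤ HH G B ∧ 5 ≤ Fintype.card B)) :
    Good g₀ (NN hB) := by
  classical
  have : Fintype (XX G B hB) := Fintype.ofFinite _
  have h := good_iter (g₀ := g₀) (N := NN hB) (D := Perm B)
    (Finset.univ : Finset {q : XX G B hB // PP hB q}) (rho hB) (by
      intro q _ M hM1 hM2
      exact good_prim hg₀ hg₁ (HH G B) (rho hB q).range M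
        (fun h hh r hr => rho_conj hB q hh hr) hM2 hM1 hcase)
  have e : (⨅ i ∈ (Finset.univ : Finset {q : XX G B hB // PP hB q}), (rho hB i).ker) = ⊥ := by
    rw [eq_bot_iff]
    intro n hn
    rw [Subgroup.mem_bot]
    apply Subtype.ext
    ext x
    by_cases hx : PP hB (cl G B hB x)
    · have h1 : n ∈ (rho hB ⟨_, hx⟩).ker := by
        simp only [Subgroup.mem_iInf] at hn
        exact hn ⟨_, hx⟩ (Finset.mem_univ _)
      rw [MonoidHom.mem_ker] at h1
      have h2 := rho_apply hB ⟨_, hx⟩ n ⟨sel hB (cl G B hB x) x, sel_B hB hx rfl⟩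
      rw [h1, Perm.one_apply, ias] at h2
      exact (Equiv.injective _ h2).symm
    · have h1 := n.2.2 x
      rw [cl_eq] at h1
      rcases h1 with h1 | ⟨k, hk, _, h2⟩
      · exact h1
      · exact absurd ((PP_cl hB).2 ⟨k, hk, h2⟩) hx
  rw [e] at h
  exact h

end

end Pool.Agent.TH72.CF
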