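import Mathlib
import Pool.Agent.TH72.CF.Tower

set_option autoImplicit false

/-!
# The induction
-/

namespace Pool.Agent.TH72.CF

open Equiv Pointwise

/-- properties of the sets among which a minimal block is chosen -/
def QQ {Ω : Type} (G : Subgroup (Perm Ω)) (a : Ω) (B : Finset Ω) : Prop :=
  a ∈ B ∧ 2 ≤ B.card ∧ (∀ x ∈ B, ∃ g ∈ G, g a = x) ∧ IsBlk G (B : Set Ω)

theorem exists_min_block {Ω : Type} [Fintype Ω] [DecidableEq Ω] (G : Subgroup (Perm Ω)) {a : Ω}
    (ha : ∃ g ∈ G, g a ≠ a) :
    ∃ B : Finset Ω, QQ G a B ∧ ∀ C : Finset Ω, QQ G a C → B.card ≤ C.card := by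
  classical
  have h0 : QQ G a (Finset.univ.filter (fun x => ∃ g ∈ G, g a = x)) := by
    obtain ⟨g, hg, hga⟩ := ha
    refine ⟨?_, ?_, ?_, ?_⟩
    · simp only [Finset.mem_filter, Finset.mem_univ, true_and]
      exact ⟨1, G.one_mem, rfl⟩
    · rw [show (2 : ℕ) = ({a, g a} : Finset Ω).card by rw [Finset.card_pair hga.symm]]
      apply Finset.card_le_card
      intro x hx
      rw [Finset.mem_insert, Finset.mem_singleton] at hx
      rw [Finset.mem_filter]
      rcases hx with rfl | rfl
      · exact ⟨Finset.mem_univ _, 1, G.one_mem, rfl⟩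
      · exact ⟨Finset.mem_univ _, g, hg, rfl⟩
    · intro x hx
      rw [Finset.mem_filter] at hx
      exact hx.2
    · intro k hk x _ _ y hy
      simp only [Finset.coe_filter, Finset.mem_univ, true_and, Set.mem_ofPred_eq] at hy ⊢
      obtain ⟨l, hl, rfl⟩ := hy
      exact ⟨k * l, G.mul_mem hk hl, rfl⟩
  obtain ⟨B, hB, hmin⟩ := Finset.exists_min_image
    (Finset.univ.filter (fun B : Finset Ω => QQ G a B)) Finset.card
    ⟨_, by rw [Finset.mem_filter]; exact ⟨Finset.mem_univ _, h0⟩⟩
  rw [Finset.mem_filter] at hB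
  exact ⟨B, hB.2, fun C hC => hmin C (by rw [Finset.mem_filter]; exact ⟨Finset.mem_univ _, hC⟩)⟩

theorem blk_inv {Ω : Type} {G : Subgroup (Perm Ω)} {B : Set Ω} (hB : IsBlk G B) {g : Perm Ω}
    (hg : g ∈ G) {x : Ω} (hx : x ∈ B) (hgx : g x ∈ B) : ∀ b ∈ B, g⁻¹ b ∈ B :=
  fun b hb => hB g⁻¹ (G.inv_mem hg) (g x) hgx (by rw [ias]; exact hx) b hb

/-- the group of a minimal block is primitive -/
theorem prim_of_min {Ω : Type} [Fintype Ω] [DecidableEq Ω] (G : Subgroup (Perm Ω)) {a : Ω}
    {B : Finset Ω} (hB : QQ G a B) (hmin : ∀ C : Finset Ω, QQ G a C → B.card ≤ C.card) :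
    MulAction.IsPreprimitive (HH G (B : Set Ω)) (B : Set Ω) := by
  classical
  obtain ⟨haB, h2, htr, hblk⟩ := hB
  have htrans : ∀ x y : (B : Set Ω), ∃ h : HH G (B : Set Ω), h • x = y := by
    intro x y
    obtain ⟨g1, hg1, h1⟩ := htr x x.2
    obtain ⟨g2, hg2, h2⟩ := htr y y.2
    have hg : g2 * g1⁻¹ ∈ G := G.mul_mem hg2 (G.inv_mem hg1)
    have hgx : (g2 * g1⁻¹) (x : Ω) = y := by
      rw [Perm.mul_apply, ← h1, ias, h2]
    have hm := hblk _ hg x x.2 (by rw [hgx]; exact y.2)
    have hm' := blk_inv hblk hg x.2 (by rw [hgx]; exact y.2)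
    refine ⟨⟨res _ _ hm hm', res_mem hg _ _⟩, ?_⟩
    apply Subtype.ext
    exact hgx
  have inst : MulAction.IsPretransitive (HH G (B : Set Ω)) (B : Set Ω) := ⟨htrans⟩
  refine { inst with isTrivialBlock_of_isBlock := ?_ }
  intro S hS
  by_contra hne
  rw [MulAction.IsTrivialBlock, not_or] at hne
  obtain ⟨hne1, hne2⟩ := hne
  rw [Set.not_subsingleton_iff] at hne1
  obtain ⟨b1, hb1, b2, hb2, hb12⟩ := hne1
  obtain ⟨h, hh⟩ := htrans b1 ⟨a, haB⟩
  have hT : MulAction.IsBlock (HH G (B : Set Ω)) (h • S) := hS.translate h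
  set T : Set (B : Set Ω) := h • S with hTdef
  have haT : (⟨a, haB⟩ : (B : Set Ω)) ∈ T := by
    rw [← hh]
    exact Set.smul_mem_smul_set hb1
  let C : Finset Ω := Finset.univ.filter (fun x => ∃ hx : x ∈ (B : Set Ω), (⟨x, hx⟩ : (B : Set Ω)) ∈ T)
  have hC : ∀ x, x ∈ C ↔ ∃ hx : x ∈ (B : Set Ω), (⟨x, hx⟩ : (B : Set Ω)) ∈ T := by
    intro x
    simp only [C, Finset.mem_filter, Finset.mem_univ, true_and]
  have hCB : C ⊆ B := by
    intro x hx
    obtain ⟨h1, _⟩ := (hC x).1 hx
    exact h1
  have hQC : QQ G a C := by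
    refine ⟨(hC a).2 ⟨haB, haT⟩, ?_, fun x hx => htr x (hCB hx), ?_⟩
    · have hsub : ({((h • b1 : (B : Set Ω)) : Ω), ((h • b2 : (B : Set Ω)) : Ω)} : Finset Ω) ⊆ C := by
        intro x hx
        rw [Finset.mem_insert, Finset.mem_singleton] at hx
        rw [hC]
        rcases hx with rfl | rfl
        · exact ⟨(h • b1 : (B : Set Ω)).2, Set.smul_mem_smul_set hb1⟩
        · exact ⟨(h • b2 : (B : Set Ω)).2, Set.smul_mem_smul_set hb2⟩
      have hne : ((h • b1 : (B : Set Ω)) : Ω) ≠ ((h • b2 : (B : Set Ω)) : Ω) := by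
        intro h'
        exact hb12 (MulAction.injective h (Subtype.ext h'))
      calc 2 = _ := (Finset.card_pair hne).symm
        _ ≤ C.card := Finset.card_le_card hsub
    · intro g hg x hx hgx y hy
      obtain ⟨hxB, hxT⟩ := (hC x).1 hx
      obtain ⟨hgxB, hgxT⟩ := (hC (g x)).1 hgx
      obtain ⟨hyB, hyT⟩ := (hC y).1 hy
      have hm := hblk g hg x hxB hgxB
      have hm' := blk_inv hblk hg hxB hgxB
      let k : HH G (B : Set Ω) := ⟨res _ g hm hm', res_mem hg _ _⟩
      have hk : k • T = T := by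
        rcases (MulAction.isBlock_iff_smul_eq_or_disjoint.1 hT) k with h' | h'
        · exact h'
        · exfalso
          have h1 : (⟨g x, hgxB⟩ : ↥(B : Set Ω)) ∈ k • T := ⟨⟨x, hxB⟩, hxT, rfl⟩
          exact Set.disjoint_left.1 h' h1 hgxT
      change g y ∈ C
      rw [hC]
      refine ⟨hm y hyB, ?_⟩
      rw [← hk]
      exact ⟨⟨y, hyB⟩, hyT, rfl⟩
  have hCe : C = B := Finset.eq_of_subset_of_card_le hCB (hmin C hQC)
  apply hne2
  rw [Set.eq_univ_iff_forall]
  intro x
  have hT' : ∀ y : (B : Set Ω), y ∈ T := by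
    intro y
    have : (y : Ω) ∈ C := by rw [hCe]; exact y.2
    obtain ⟨_, h2⟩ := (hC y).1 this
    exact h2
  have := hT' (h • x)
  rw [hTdef, Set.smul_mem_smul_set_iff] at this
  exact this

theorem good_of_trivial {g₀ : ℕ} (hg : 2 < g₀) {K : Type} [Group K] (h : ∀ x : K, x = 1) :
    Good g₀ K := by
  have : Subsingleton K := ⟨fun x y => by rw [h x, h y]⟩
  apply good_of_card
  rw [Nat.card_of_subsingleton (1 : K)]
  omega

/-- Main induction: if all primitive groups of degree at least `m₀` which do not contain the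
alternating group have a distinguishing colouring, then every permutation group has a colouring
with good stabilizer. -/
theorem tower {g₀ m₀ : ℕ} (hg₀ : m₀.factorial < g₀) (hg₁ : 2 < g₀) (hm₀ : 5 ≤ m₀)
    (hP : ∀ (Δ : Type) [Fintype Δ] [DecidableEq Δ] (H : Subgroup (Perm Δ)),
      MulAction.IsPreprimitive H Δ → m₀ ≤ Fintype.card Δ → ¬ alternatingGroup Δ ≤ H →
      ∃ α : Δ → Bool, Dist H α) :
    ∀ (n : ℕ) (Ω : Type) [Fintype Ω] [DecidableEq Ω], Fintype.card Ω = n →
      ∀ G : Subgroup (Perm Ω), ∃ c : Ω → Bool, Good g₀ (stab G c) := by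
  classical
  intro n
  induction n using Nat.strong_induction_on with
  | _ n ih =>
    intro Ω _ _ hn G
    by_cases htriv : ∀ g ∈ G, ∀ x, g x = x
    · refine ⟨fun _ => false, good_of_trivial hg₁ ?_⟩
      rintro ⟨g, hg, _⟩
      apply Subtype.ext
      ext x
      exact htriv g hg x
    · push Not at htriv
      obtain ⟨g1, hg1, a, ha⟩ := htriv
      obtain ⟨B, hQ, hmin⟩ := exists_min_block G ⟨g1, hg1, ha⟩
      have hprim := prim_of_min G hQ hmin
      obtain ⟨haB, hB2, htr, hB⟩ := hQ
      have : Fintype (XX G (B : Set Ω) hB) := Fintype.ofFinite _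
      have : DecidableEq (XX G (B : Set Ω) hB) := Classical.decEq _
      have hlt : Fintype.card (XX G (B : Set Ω) hB) < n := by
        rw [← hn]
        refine Fintype.card_lt_of_surjective_not_injective (cl G (B : Set Ω) hB) (cl_surj hB) ?_
        intro hinj
        obtain ⟨b, hb, hba⟩ := Finset.exists_mem_ne (Nat.lt_of_lt_of_le (by norm_num) hB2) a
        apply hba
        apply hinj
        rw [cl_eq]
        exact Or.inr ⟨1, G.one_mem, hb, haB⟩
      by_cases hD : ∃ α : ↥(B : Set Ω) → Bool, Dist (HH G (B : Set Ω)) α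
      · obtain ⟨α, hα1, hα2⟩ := hD
        -- the group preserving the colouring `hat α`
        set G0 : Subgroup (Perm Ω) := stab G (hat hB α) with hG0
        obtain ⟨κ, hκ⟩ := ih _ hlt (XX G (B : Set Ω) hB) rfl
          ((G0.subgroupOf G).map (act hB))
        refine ⟨fun x => xor (hat hB α x) (κ (cl G (B : Set Ω) hB x)), ?_⟩
        set γ : Ω → Bool := fun x => xor (hat hB α x) (κ (cl G (B : Set Ω) hB x)) with hγ
        have hle : stab G γ ≤ G := fun x hx => hx.1
        let ψ : stab G γ →* Perm (XX G (B : Set Ω) hB) := (act hB).comp (Subgroup.inclusion hle)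
        have hψ : ∀ (s : stab G γ) (x : Ω), ψ s (cl G (B : Set Ω) hB x) = cl G (B : Set Ω) hB (s.1 x) :=
          fun s x => rfl
        have hrange : ψ.range = stab ((G0.subgroupOf G).map (act hB)) κ := by
          ext p
          constructor
          · rintro ⟨s, rfl⟩
            have hk := fun x => key1 hB hα2 s.2.1 κ (fun x => s.2.2 x) x
            refine ⟨⟨Subgroup.inclusion hle s, ?_, rfl⟩, ?_⟩
            · exact ⟨s.2.1, fun x => (hk x).1⟩
            · intro q
              obtain ⟨x, rfl⟩ := cl_surj hB q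
              rw [hψ]
              exact (hk x).2
          · rintro ⟨⟨g, hg, rfl⟩, hp⟩
            have hg' : g.1 ∈ stab G γ := by
              refine ⟨g.2, fun x => ?_⟩
              have h1 : hat hB α (g.1 x) = hat hB α x := hg.2 x
              have h2 := hp (cl G (B : Set Ω) hB x)
              rw [act_cl] at h2
              change xor (hat hB α (g.1 x)) (κ (cl G (B : Set Ω) hB (g.1 x))) =
                xor (hat hB α x) (κ (cl G (B : Set Ω) hB x))
              rw [h1, h2]
            exact ⟨⟨g.1, hg'⟩, rfl⟩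
        apply good_ext ψ
        · rw [hrange]
          exact hκ
        · apply good_of_trivial hg₁
          rintro ⟨s, hs⟩
          rw [MonoidHom.mem_ker] at hs
          apply Subtype.ext
          apply Subtype.ext
          have hk := fun x => key1 hB hα2 s.2.1 κ (fun x => s.2.2 x) x
          refine key2 hB hα1 s.2.1 (fun x => (hk x).1) (fun x => ?_)
          rw [← hψ, hs, Perm.one_apply]
      · -- constant colouring of the blocks
        have hcase : Fintype.card (B : Set Ω) < m₀ ∨
            (alternatingGroup (B : Set Ω) ≤ HH G (B : Set Ω) ∧ 5 ≤ Fintype.card (B : Set Ω)) := by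
          by_contra hne
          rw [not_or, not_and, not_lt] at hne
          obtain ⟨h1, h2⟩ := hne
          apply hD
          refine hP (B : Set Ω) (HH G (B : Set Ω)) hprim h1 (fun hA => ?_)
          exact h2 hA (le_trans hm₀ h1)
        obtain ⟨κ, hκ⟩ := ih _ hlt (XX G (B : Set Ω) hB) rfl (act hB).range
        refine ⟨fun x => κ (cl G (B : Set Ω) hB x), ?_⟩
        set γ : Ω → Bool := fun x => κ (cl G (B : Set Ω) hB x) with hγ
        have hle : stab G γ ≤ G := fun x hx => hx.1
        let ψ : stab G γ →* Perm (XX G (B : Set Ω) hB) := (act hB).comp (Subgroup.inclusion hle)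
        have hψ : ∀ (s : stab G γ) (x : Ω), ψ s (cl G (B : Set Ω) hB x) = cl G (B : Set Ω) hB (s.1 x) :=
          fun s x => rfl
        have hrange : ψ.range = stab (act hB).range κ := by
          ext p
          constructor
          · rintro ⟨s, rfl⟩
            refine ⟨⟨Subgroup.inclusion hle s, rfl⟩, ?_⟩
            intro q
            obtain ⟨x, rfl⟩ := cl_surj hB q
            rw [hψ]
            exact s.2.2 x
          · rintro ⟨⟨g, rfl⟩, hp⟩
            have hg' : g.1 ∈ stab G γ := by
              refine ⟨g.2, fun x => ?_⟩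
              have h2 := hp (cl G (B : Set Ω) hB x)
              rw [act_cl] at h2
              exact h2
            exact ⟨⟨g.1, hg'⟩, rfl⟩
        apply good_ext ψ
        · rw [hrange]
          exact hκ
        · have hN := NN_good hB hg₀ hg₁ hcase
          have hmem : ∀ s : stab G γ, s ∈ ψ.ker ↔ s.1 ∈ NN hB := by
            intro s
            rw [MonoidHom.mem_ker]
            constructor
            · intro h
              refine ⟨s.2.1, fun x => ?_⟩
              rw [← hψ, h, Perm.one_apply]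
            · intro h
              ext q
              obtain ⟨x, rfl⟩ := cl_surj hB q
              rw [hψ, h.2 x, Perm.one_apply]
          let e : NN hB ≃* ψ.ker :=
            { toFun := fun n => ⟨⟨n.1, n.2.1, fun x => by
                change κ (cl G (B : Set Ω) hB (n.1 x)) = κ (cl G (B : Set Ω) hB x)
                rw [n.2.2 x]⟩, (hmem _).2 n.2⟩
              invFun := fun s => ⟨s.1.1, (hmem _).1 s.2⟩
              left_inv := fun n => rfl
              right_inv := fun n => rfl
              map_mul' := fun n m => rfl }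
          exact good_equiv e hN

/-- conversion of a series to a sequence of subgroups of an ambient group -/
theorem ser_chain {g₀ : ℕ} {K : Type} [Group K] {A B : Subgroup K} (h : Ser g₀ A B) :
    ∃ (k : ℕ) (f : ℕ → Subgroup K), f 0 = A ∧ f k = B ∧ ∀ i < k, Step g₀ (f i) (f (i + 1)) := by
  induction h using Relation.ReflTransGen.head_induction_on with
  | refl => exact ⟨0, fun _ => B, rfl, rfl, fun i hi => absurd hi (Nat.not_lt_zero i)⟩
  | @head A C h1 _ ih =>
    obtain ⟨k, f, hf0, hfk, hf⟩ := ih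
    refine ⟨k + 1, (fun i => match i with | 0 => A | j + 1 => f j), rfl, hfk, ?_⟩
    intro i hi
    cases i with
    | zero =>
      change Step g₀ A (f 0)
      rw [hf0]
      exact h1
    | succ j => exact hf j (by omega)

theorem good_chain {g₀ : ℕ} {K : Type} [Group K] {A : Subgroup K} (h : Good g₀ A) :
    ∃ (k : ℕ) (f : ℕ → Subgroup K), f 0 = A ∧ f k = ⊥ ∧ ∀ i < k, Step g₀ (f i) (f (i + 1)) := by
  have b := ser_map A.subtype A.subtype_injective h
  rw [Subgroup.map_bot, ← MonoidHom.range_eq_map, Subgroup.range_subtype] at b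
  exact ser_chain b

end Pool.Agent.TH72.CF
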